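import Pool.Agent.Lib.MP_988b7a_gt.Defs

/-! A torus with two holes and the bouquet of `r` circles. -/

namespace Pool.Agent.Lib.MP_988b7a_gt.T

/-- The torus. -/
abbrev Tor : Type := UnitAddCircle × UnitAddCircle

/-- The projection of the plane onto the torus. -/
def prj (z : ℂ) : Tor := ((z.re : UnitAddCircle), (z.im : UnitAddCircle))

/-- The centres of the two holes. -/
noncomputable def cen : Fin 2 → ℂ := ![0, (1 + Complex.I) / 4]

/-- The torus minus the images of the two open discs of radius `1 / 20`. -/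
def Holed : Set Tor := {p | ∀ z, prj z = p → ∀ i, 1 / 20 ≤ ‖z - cen i‖}

/-- The boundary circle number `i`. -/
def rim (i : Fin 2) : Set Holed := {p | ∃ z, prj z = p.1 ∧ ‖z - cen i‖ = 1 / 20}

/-- The boundary of the surface. -/
def edge : Set Holed := ⋃ i, rim i

/-- The bouquet of `r` circles. -/
abbrev Wedge (r : ℕ) : Type :=
  {x : Fin r → ℂ // (∀ i, ‖x i‖ = 1) ∧ ∀ i j, i ≠ j → x i = 1 ∨ x j = 1}

end Pool.Agent.Lib.MP_988b7a_gt.T
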