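import Pool.Agent.Lib.MP_988b7a_gt.T.Inv

/-! Dehn twists about null-curves and the map to the bouquet. -/

namespace Pool.Agent.Lib.MP_988b7a_gt.T

open Complex Real ComplexConjugate

variable {ψ χ : ℂ → ℂ} {A : ℤ × ℤ ≃+ ℤ × ℤ} {e : ℤ × ℤ}

/-- The twist in the basic disc. -/
noncomputable def tt (u : ℝ) (z : ℂ) : ℂ :=
  qq / 2 + (z - qq / 2) * cexp ((u * (1 - cl (10 * ‖z - qq / 2‖ - 7 / 2)) : ℝ) * (2 * π * I))

@[fun_prop] theorem cont_tt {X : Type} [TopologicalSpace X] {u : X → ℝ} {z : X → ℂ}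
    (hu : Continuous u) (hz : Continuous z) : Continuous fun a => tt (u a) (z a) := by
  unfold tt; fun_prop

theorem norm_tt (u : ℝ) (z : ℂ) : ‖tt u z - qq / 2‖ = ‖z - qq / 2‖ := by
  simp [tt, Complex.norm_exp]

theorem tt_tt (u : ℝ) (z : ℂ) : tt (-u) (tt u z) = z := by
  rw [tt, norm_tt, tt, add_sub_cancel_left, mul_assoc, ← Complex.exp_add]
  simp

theorem tt_in (u : ℝ) {z : ℂ} (h : ‖z - qq / 2‖ ≤ 7 / 20) :
    tt u z = qq / 2 + (z - qq / 2) * cexp (u * (2 * π * I)) := by
  rw [tt, cl_low (by linarith)]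
  simp

theorem tt_int (n : ℤ) {z : ℂ} (h : ‖z - qq / 2‖ ≤ 7 / 20) : tt n z = z := by
  rw [tt_in _ h, ofReal_intCast, exp_int_mul_two_pi_mul_I]
  ring

theorem small_tt (u : ℝ) : Small fun z => tt u z - z := fun z h => by
  simp [tt, cl_high (show 1 ≤ 10 * ‖z - qq / 2‖ - 7 / 2 by linarith)]

/-- The periodic twist. -/
noncomputable def tw (u : ℝ) (z : ℂ) : ℂ := z + per (fun z => tt u z - z) z

@[fun_prop] theorem cont_tw {X : Type} [TopologicalSpace X] {u : X → ℝ} {z : X → ℂ}
    (hu : Continuous u) (hz : Continuous z) : Continuous fun a => tw (u a) (z a) :=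
  hz.add ((cont_per (κ := fun u z => tt u z - z) (by fun_prop)
    fun u => (small_tt u).far).comp (hu.prodMk hz))

theorem tw_lat (u : ℝ) (z : ℂ) (v : ℤ × ℤ) : tw u (z + lat v) = tw u z + lat v := by
  rw [tw, per_lat, tw]; ring

theorem tw_loc (u : ℝ) {z : ℂ} (h : ‖z - qq / 2‖ ≤ 1 / 2) : tw u z = tt u z := by
  rw [tw, (small_tt u).loc h, add_sub_cancel]

theorem tw_out (u : ℝ) {z : ℂ} (h : Out z) : tw u z = z := by
  rw [tw, (small_tt u).out h, add_zero]

theorem tw_tw (u : ℝ) (z : ℂ) : tw (-u) (tw u z) = z := by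
  rcases cases_pt z with ⟨y, v, hy, rfl⟩ | h
  · rw [tw_lat, tw_lat, tw_loc u hy, tw_loc _ (by rwa [norm_tt]), tt_tt]
  · rw [tw_out u h, tw_out _ h]

theorem tw_inj (u : ℝ) : Function.Injective (tw u) := Function.LeftInverse.injective (tw_tw u)

theorem tw_zero (z : ℂ) : tw 0 z = z := by simp [tw, tt, per]

theorem good_tw (n : ℤ) : Good (tw n) (.refl _) 0 :=
  ⟨by fun_prop, ⟨tw (-n), by fun_prop, tw_tw n⟩, tw_lat n,
    fun z hz => by rw [tw_loc _ (by linarith [near0 hz]), tt_int _ (by linarith [near0 hz])],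
    fun z hz => by
      rw [tw_loc _ (by linarith [nearq hz]), tt_int _ (by linarith [nearq hz]), map_zero, add_zero]⟩

theorem FF_tw (n : ℤ) (z : ℂ) : FF (tw n z) = FF z := by
  rcases cases_pt z with ⟨y, v, hy, rfl⟩ | h
  · rw [tw_lat, FF_lat, FF_lat, tw_loc _ hy]
    rcases le_total ‖y - qq / 2‖ (7 / 20) with h | h
    · rw [tt_int _ h]
    · rw [FF_loc hy, FF_loc (by rwa [norm_tt]), phi_out h, phi_out (by rwa [norm_tt])]
  · rw [tw_out _ h]

/-- The conjugated twist. -/
noncomputable def cj (m : ℤ) (u : ℝ) (z : ℂ) : ℂ := sh m (tw u (sh (-m : ℤ) z))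

theorem sh_neg (m : ℤ) (z : ℂ) : sh (-m : ℤ) (sh m z) = z := by simp [sh_sh, sh_zero]
theorem sh_neg' (m : ℤ) (z : ℂ) : sh m (sh (-m : ℤ) z) = z := by simp [sh_sh, sh_zero]

theorem cj_cj (m : ℤ) (u : ℝ) (z : ℂ) : cj m (-u) (cj m u z) = z := by
  rw [cj, cj, sh_neg, tw_tw, sh_neg']

theorem good_cj (m n : ℤ) : Good (cj m n) (.refl _) 0 := by
  have := (good_sh m).comp ((good_tw n).comp (good_sh (-m)))
  rw [show ((m, 0) : ℤ × ℤ) + _ = 0 from Prod.ext (by simp) (by simp)] at this
  exact this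

theorem val_cj (m : ℤ) {v : ℤ × ℤ} (hv : v ≠ 0) :
    Val (cj m 1) v (if v = (-m, 0) then 2 * π * I else 0) := by
  have g1 := good_tw 1
  rw [Int.cast_one] at g1
  have key : ∀ {x y a : ℂ}, x ≠ y → tw 1 x = x → tw 1 y = y → Wind (fun t => tw t x - tw t y) a →
      Wind (fun t => sh m (tw t x) - sh m (tw t y)) a := fun {x y a} h hx hy ha => by
    have hG : ∀ p : ℝ × ℝ, sh (p.2 * m) (tw p.1 x) - sh (p.2 * m) (tw p.1 y) ≠ 0 :=
      fun p => sub_ne_zero.2 ((sh_inj _).ne ((tw_inj _).ne h))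
    obtain ⟨b, hb⟩ := exists_wind (A := fun t => sh (1 * m) (tw t x) - sh (1 * m) (tw t y))
      (by fun_prop) fun t => hG (t, 1)
    obtain ⟨c, hc⟩ := exists_wind (A := fun u => sh (u * m) (tw 0 x) - sh (u * m) (tw 0 y))
      (by fun_prop) fun u => hG (0, u)
    have h1 := wind_square (by fun_prop) hG (by simpa only [zero_mul, sh_zero] using ha) hb hc
      (by simpa only [hx, hy, tw_zero] using hc)
    rw [one_mul] at hb
    rwa [show a = b by linear_combination h1]
  have s0 : sh (-m : ℤ) 0 = 0 := (good_sh _).h0 0 (by simp)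
  have s1 : sh (-m : ℤ) (lat v) = 0 + lat v := by rw [(good_sh _).lat, zero_add]; rfl
  have s2 : sh (-m : ℤ) qq = qq + lat (-m, 0) := (good_sh _).hq qq (by simp)
  have t0 : ∀ t, tw t 0 = qq / 2 - qq / 2 * cexp (t * (2 * π * I)) := fun t => by
    have := near0 (z := 0) (by simp)
    rw [tw_loc _ (by linarith), tt_in _ (by linarith)]; ring
  have t1 : ∀ t, tw t qq = qq / 2 + qq / 2 * cexp (t * (2 * π * I)) := fun t => by
    have := nearq (z := qq) (by simp)
    rw [tw_loc _ (by linarith), tt_in _ (by linarith)]; ring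
  have hl : lat v ≠ 0 := (map_ne_zero_iff _ lat_inj).2 hv
  have hq : qq ≠ 0 := fun e => by simpa using congrArg re e
  have w1 := key (x := 0) (y := 0 + lat v) (by simpa using hl.symm) g1.zero
    (by rw [tw_lat, g1.zero]) ((wind_const (neg_ne_zero.2 hl)).congr fun t => by
      rw [tw_lat]; ring)
  have w2 := key (x := qq + lat (-m, 0)) (y := 0 + lat v) (fun e => by
      have := congrArg im e
      simp at this
      have : (1 : ℝ) = (4 * v.2 : ℤ) := by push_cast; linarith
      have : (1 : ℤ) = 4 * v.2 := by exact_mod_cast this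
      omega) (by rw [tw_lat, g1.qq]) (by rw [tw_lat, g1.zero])
    (a := if v = (-m, 0) then 2 * π * I else 0) (by
      split_ifs with h
      · exact ⟨fun t => log qq + t * (2 * π * I), by fun_prop, fun t => by
          simp only [tw_lat, t0, t1, h, Complex.exp_add, Complex.exp_log hq]; ring, by simp⟩
      · have a1 := one_le_lat (sub_ne_zero.2 h)
        have a2 : lat (v - (-m, 0)) ≠ 0 := fun e => by rw [e, norm_zero] at a1; linarith
        refine (zero_add (0 : ℂ) ▸ (wind_const (neg_ne_zero.2 a2)).mul (wind_slit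
          (A := fun t => 1 - qq * cexp (t * (2 * π * I)) / lat (v - (-m, 0))) (by fun_prop)
          (fun t => slit_one_sub ?_) (by simp))).congr fun t => ?_
        · simp [Complex.norm_exp, -map_sub]
          linarith [norm_qq]
        · rw [tw_lat, tw_lat, t0, t1, mul_sub, neg_mul (lat _) (_ / _), mul_div_cancel₀ _ a2,
            map_sub]
          ring)
  have g2 := good_cj m 1
  rw [Int.cast_one] at g2
  have := val_of_isotopy hv (R := fun x => cj m x.1 x.2) (by unfold cj; fun_prop)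
    (fun w => by simp only [cj, tw_zero, sh_neg']) g2
    (fun t => Function.LeftInverse.injective (cj_cj m t))
    (by simpa only [cj, s0, s1] using w1) (by simpa only [cj, s2, s1] using w2)
  rw [sub_zero] at this
  exact this

theorem sum_cj (p : ℕ) {m : ℕ} (hm : m ≠ 0) :
    ∑ᶠ v, kk p (cj m 1) v = if p ∣ m then 2 * π * I else 0 := by
  classical
  rw [finsum_eq_single _ (-(m : ℤ), 0) fun v hv => by
    rw [kk_eq p (val_cj m), if_neg hv, ite_self], kk_eq p (val_cj m), if_pos rfl]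
  refine if_congr ⟨fun ⟨_, u, hu⟩ => ?_, fun ⟨k, hk⟩ => ⟨by simpa using hm, (-k, 0), by
    simp [hk]⟩⟩ rfl rfl
  have : -(m : ℤ) = p * u.1 := by simpa using congrArg Prod.fst hu
  exact Int.natCast_dvd_natCast.1 ⟨-u.1, by linarith⟩

theorem hole_fix (h : Good ψ (.refl _) 0) {z : ℂ} (hz : prj z ∉ Int') : ψ z = z := by
  simp only [Int', Set.mem_ofPred_eq, not_forall, not_lt] at hz
  obtain ⟨w, h1, i, h2⟩ := hz
  obtain ⟨v, rfl⟩ := prj_eq.1 h1.symm
  rw [h.eqv]
  fin_cases i
  · rw [h.h0 w (by simpa [cen] using h2)]; rfl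
  · rw [h.hq w h2, map_zero, add_zero]; rfl

theorem prj_per (h : Good ψ (.refl _) 0) (z : ℂ) (v : ℤ × ℤ) :
    prj (ψ (z + lat v)) = prj (ψ z) := by rw [h.eqv, prj_lat]

theorem desc_mem (h : Good ψ (.refl _) 0) (p : Holed) : prj (ψ (sec p)) ∈ Holed := by
  by_contra hn
  have h1 := h.inj (hole_fix h fun e => hn (Int_sub e))
  rw [h1, prj_sec] at hn
  exact hn p.2

/-- The homeomorphism of the surface induced by a good map. -/
noncomputable def desc (h : Good ψ (.refl _) 0) (g : Good χ (.refl _) 0) (h1 : ∀ z, χ (ψ z) = z)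
    (h2 : ∀ z, ψ (χ z) = z) : homeoFix edge :=
  ⟨{ toFun := fun p => ⟨_, desc_mem h p⟩
     invFun := fun p => ⟨_, desc_mem g p⟩
     left_inv := fun p => Subtype.ext (by
       simp only [sec_prj (g := fun z => prj (χ z)) (prj_per g), h1, prj_sec])
     right_inv := fun p => Subtype.ext (by
       simp only [sec_prj (g := fun z => prj (ψ z)) (prj_per h), h2, prj_sec])
     continuous_toFun := ((cont_sec (cont_prj.comp h.cont) (prj_per h)).comp
       continuous_subtype_val).subtype_mk _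
     continuous_invFun := ((cont_sec (cont_prj.comp g.cont) (prj_per g)).comp
       continuous_subtype_val).subtype_mk _ },
    fun p hp => Subtype.ext (by
      show prj (ψ (sec p)) = p
      rw [hole_fix h (by rw [prj_sec]; exact mem_edge.1 hp), prj_sec])⟩

theorem isLift_desc (h : Good ψ (.refl _) 0) (g : Good χ (.refl _) 0) (h1 : ∀ z, χ (ψ z) = z)
    (h2 : ∀ z, ψ (χ z) = z) : IsLift (desc h g h1 h2) ψ :=
  ⟨h.cont, h.zero, fun z => by
    by_cases e : prj z ∈ Holed
    · exact ((ext_mem _ ⟨_, e⟩).trans (sec_prj (g := fun z => prj (ψ z)) (prj_per h) z)).symm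
    · rw [ext_fix _ fun a => e (Int_sub a), hole_fix h fun a => e (Int_sub a)]⟩

/-- The Dehn twists. -/
noncomputable def rho (m : ℤ) : homeoFix edge :=
  desc (good_cj m 1) (good_cj m (-1)) (fun z => by simpa using cj_cj m 1 z)
    fun z => by simpa using cj_cj m (-1) z

theorem isLift_rho (m : ℤ) : IsLift (rho m) (cj m 1) := Int.cast_one (R := ℝ) ▸ isLift_desc ..

theorem holed_cen {z : ℂ} (h : prj z ∈ Holed) : ¬ Cen z := by
  rintro ⟨v, rfl | rfl⟩
  · have := h 0 (by rw [← zero_add (lat v), prj_lat]) 0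
    norm_num [cen] at this
  · have := h qq (prj_lat _ _).symm 1
    norm_num [cen, qq] at this

theorem FF_sec (p : Holed) : FF (sec p) ≠ 0 := FF_ne (holed_cen (by rw [prj_sec]; exact p.2))

theorem cont_FF_sec : Continuous fun p : Holed => FF (sec p) :=
  (cont_sec cont_FF FF_lat).comp continuous_subtype_val

variable {r : ℕ}

/-- The retraction of the punctured plane onto the circle number `j`. -/
noncomputable def bq (j : Fin r) : C({x : ℂ // x ≠ 0}, Wedge r) where
  toFun x := ⟨Function.update 1 j (x.1 / ‖x.1‖), fun i => by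
    by_cases h : i = j
    · simp [h, x.2]
    · simp [h], fun a b h => by
    by_cases e : a = j
    · exact Or.inr (by simp [(e ▸ h : j ≠ b).symm])
    · exact Or.inl (by simp [e])⟩
  continuous_toFun := (continuous_const.update j (Continuous.div (by fun_prop) (by fun_prop)
    fun x => by simpa using x.2)).subtype_mk _

/-- The map to the bouquet. -/
noncomputable def fm (j : Fin r) : C(Holed, Wedge r) :=
  (bq j).comp ⟨fun p => ⟨_, FF_sec p⟩, cont_FF_sec.subtype_mk _⟩

theorem fm_j (j : Fin r) (p : Holed) : (fm j p).1 j = FF (sec p) / ‖FF (sec p)‖ :=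
  Function.update_self ..

theorem wedge_ne (x : Wedge r) (j : Fin r) : x.1 j ≠ 0 := fun e => by simpa [e] using x.2.1 j

theorem rho_mem (j : Fin r) {V : Set Holed} (hV : V ⊆ edge) (m : ℤ) :
    rho m ∈ stabHomeo hV (fm j) := by
  obtain ⟨l, L, a1, a2, a3⟩ := (good_sh m).per
  let d : ℂ → ℂ := fun w => L (tw 1 (sh (-m : ℤ) w)) - L (sh (-m : ℤ) w)
  have d1 : ∀ z v, d (z + lat v) = d z := fun z v => by
    simp only [d, (good_sh _).eqv, tw_lat, a3]; ring
  have d2 : Continuous fun p : Holed => d (sec p) :=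
    (cont_sec (by fun_prop) d1).comp continuous_subtype_val
  have d3 : ∀ w, FF (cj m 1 w) = FF w * cexp (d w) := fun w => by
    have := a2 (sh (-m : ℤ) w)
    rw [sh_neg'] at this
    rw [cj, a2, this, Complex.exp_sub, show FF (tw 1 _) = _ from Int.cast_one (R := ℝ) ▸ FF_tw 1 _]
    field_simp
  let G : C(unitInterval × Holed, Wedge r) := (bq j).comp
    ⟨fun x => ⟨FF (sec x.2) * cexp ((x.1 : ℝ) * d (sec x.2)),
      mul_ne_zero (FF_sec _) (Complex.exp_ne_zero _)⟩,
    ((cont_FF_sec.comp continuous_snd).mul (Complex.continuous_exp.comp (Continuous.mul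
      (by fun_prop) (d2.comp continuous_snd)))).subtype_mk _⟩
  rw [← (stabHomeo hV (fm j)).inv_mem_iff]
  refine ContinuousMap.HomotopicRel.symm ⟨⟨⟨G, fun z => congrArg (bq j) (Subtype.ext ?_),
    fun z => congrArg (bq j) (Subtype.ext ?_)⟩, fun t z hz => congrArg (bq j) (Subtype.ext ?_)⟩⟩
  · simp
  · show FF (sec z) * cexp ((1 : ℝ) * d (sec z)) = FF (sec (prj (cj m (1 : ℤ) (sec z))))
    rw [sec_prj FF_lat, Int.cast_one, d3, ofReal_one, one_mul]
  · have h1 := hole_fix (good_cj m 1) (z := sec z) (by rw [prj_sec]; exact mem_edge.1 (hV hz))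
    have h2 := congrArg (sh (-m : ℤ)) h1
    rw [cj, sh_neg, Int.cast_one] at h2
    show FF (sec z) * cexp ((t : ℝ) * d (sec z)) = FF (sec z)
    simp only [d, h2, sub_self, mul_zero, Complex.exp_zero, mul_one]

end Pool.Agent.Lib.MP_988b7a_gt.T
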