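import Pool.Agent.Lib.MP_988b7a_gt.T.Lat

/-! The periodic function, good maps of the plane and their periods. -/

namespace Pool.Agent.Lib.MP_988b7a_gt.T

open Complex ComplexConjugate

/-- Clamp. -/
noncomputable def cl (x : ℝ) : ℝ := max 0 (min x 1)

@[fun_prop] theorem cont_cl : Continuous cl := by unfold cl; fun_prop
theorem cl_low {x : ℝ} (h : x ≤ 0) : cl x = 0 := max_eq_left ((min_le_left _ _).trans h)
theorem cl_high {x : ℝ} (h : 1 ≤ x) : cl x = 1 := by
  rw [cl, min_eq_right h, max_eq_right zero_le_one]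
theorem cl_nonneg (x : ℝ) : 0 ≤ cl x := le_max_left _ _
theorem cl_le (x : ℝ) : cl x ≤ 1 := max_le zero_le_one (min_le_right _ _)

/-- One zero of degree one and one of degree minus one. -/
noncomputable def ww (z : ℂ) : ℂ := z * conj (z - qq)

/-- The same, cut off. -/
noncomputable def phi (z : ℂ) : ℂ := 1 + ((1 - cl (20 * ‖z - qq / 2‖ - 6) : ℝ) : ℂ) * (ww z - 1)

@[fun_prop] theorem cont_ww : Continuous ww := by unfold ww; fun_prop
@[fun_prop] theorem cont_phi : Continuous phi := by unfold phi; fun_prop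

theorem phi_in {z : ℂ} (h : ‖z - qq / 2‖ ≤ 3 / 10) : phi z = ww z := by
  rw [phi, cl_low (by linarith)]
  simp

theorem phi_out {z : ℂ} (h : 7 / 20 ≤ ‖z - qq / 2‖) : phi z = 1 := by
  rw [phi, cl_high (by linarith)]
  simp

theorem ww_ne {z : ℂ} (h0 : z ≠ 0) (h1 : z ≠ qq) : ww z ≠ 0 :=
  mul_ne_zero h0 ((map_ne_zero _).2 (sub_ne_zero.2 h1))

theorem phi_ne {z : ℂ} (h0 : z ≠ 0) (h1 : z ≠ qq) : phi z ≠ 0 := by
  rcases le_or_gt ‖z - qq / 2‖ (3 / 10) with h | h
  · rw [phi_in h]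
    exact ww_ne h0 h1
  · have h2 : (3 / 10 : ℝ) ^ 2 ≤ normSq (z - qq / 2) := by
      rw [normSq_eq_norm_sq]
      gcongr
    have h3 : 0 < (ww z).re := by
      simp [normSq_apply, ww] at h2 ⊢
      nlinarith
    intro e
    have h4 := congrArg re e
    rw [phi, add_re, re_ofReal_mul, sub_re, one_re, zero_re] at h4
    have h5 := cl_nonneg (20 * ‖z - qq / 2‖ - 6)
    have h6 := cl_le (20 * ‖z - qq / 2‖ - 6)
    rcases h5.eq_or_lt with h7 | h7
    · rw [← h7] at h4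
      linarith
    · nlinarith

theorem small_phi : Small fun z => phi z - 1 := fun _ h => sub_eq_zero.2 (phi_out (by linarith))

/-- The periodic function. -/
noncomputable def FF (z : ℂ) : ℂ := 1 + per (fun z => phi z - 1) z

@[fun_prop] theorem cont_FF : Continuous FF :=
  continuous_const.add (cont_per' (by fun_prop) small_phi.far)

theorem FF_lat (z : ℂ) (v : ℤ × ℤ) : FF (z + lat v) = FF z := by rw [FF, per_lat, FF]

theorem FF_loc {z : ℂ} (h : ‖z - qq / 2‖ ≤ 1 / 2) : FF z = phi z := by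
  rw [FF, small_phi.loc h, add_sub_cancel]

theorem FF_out {z : ℂ} (h : ∀ v, 1 / 2 ≤ ‖z - lat v - qq / 2‖) : FF z = 1 := by
  rw [FF, small_phi.out h, add_zero]

/-- Centres of holes. -/
def Cen (z : ℂ) : Prop := ∃ v, z = lat v ∨ z = qq + lat v

theorem FF_ne {z : ℂ} (h : ¬ Cen z) : FF z ≠ 0 := by
  rcases cases_pt z with ⟨y, v, hy, rfl⟩ | h1
  · rw [FF_lat, FF_loc hy]
    exact phi_ne (fun e => h ⟨v, Or.inl (by simp [e])⟩) fun e => h ⟨v, Or.inr (by rw [e])⟩
  · rw [FF_out h1]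
    exact one_ne_zero

theorem FF_prod (z : ℂ) : FF z = ∏ᶠ v, phi (z - lat v) := by
  rcases cases_pt z with ⟨y, v, hy, rfl⟩ | h1
  · rw [FF_lat, FF_loc hy, finprod_eq_single _ v, add_sub_cancel_right]
    intro u hu
    have := far hy (sub_ne_zero.2 hu)
    rw [map_sub] at this
    exact phi_out (by rw [show y + lat v - lat u = y - (lat u - lat v) by ring]; linarith)
  · rw [FF_out h1, finprod_eq_one_of_forall_eq_one fun v => phi_out (by linarith [h1 v])]

theorem near0 {z : ℂ} (h : ‖z‖ ≤ 1 / 20) : ‖z - qq / 2‖ ≤ 3 / 10 := by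
  linarith [norm_sub_le z (qq / 2), norm_qq2]

theorem nearq {z : ℂ} (h : ‖z - qq‖ ≤ 1 / 20) : ‖z - qq / 2‖ ≤ 3 / 10 := by
  have := norm_add_le (z - qq) (qq / 2)
  rw [show z - qq + qq / 2 = z - qq / 2 by ring] at this
  linarith [norm_qq2]

theorem ev_near (c : ℂ) : ∀ᶠ w in nhds c, ‖w - c‖ ≤ 1 / 20 := by
  filter_upwards [Metric.closedBall_mem_nhds c (show (0 : ℝ) < 1 / 20 by norm_num)] with w hw
  exact mem_closedBall_iff_norm.1 hw

/-- Lifts of homeomorphisms that fix the holes. -/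
structure Good (ψ : ℂ → ℂ) (A : ℤ × ℤ ≃+ ℤ × ℤ) (e : ℤ × ℤ) : Prop where
  cont : Continuous ψ
  inv : ∃ χ : ℂ → ℂ, Continuous χ ∧ ∀ z, χ (ψ z) = z
  eqv : ∀ z v, ψ (z + lat v) = ψ z + lat (A v)
  h0 : ∀ z, ‖z‖ ≤ 1 / 20 → ψ z = z
  hq : ∀ z, ‖z - qq‖ ≤ 1 / 20 → ψ z = z + lat e

variable {ψ χ : ℂ → ℂ} {A B : ℤ × ℤ ≃+ ℤ × ℤ} {e e' : ℤ × ℤ}

theorem Good.inj (h : Good ψ A e) : Function.Injective ψ :=
  h.inv.elim fun _ h => Function.LeftInverse.injective h.2

theorem Good.comp (h : Good ψ A e) (h' : Good χ B e') :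
    Good (fun z => ψ (χ z)) (B.trans A) (e + A e') := by
  obtain ⟨a, a1, a2⟩ := h.inv
  obtain ⟨b, b1, b2⟩ := h'.inv
  refine ⟨h.cont.comp h'.cont, ⟨_, b1.comp a1, fun z => by simp [a2, b2]⟩,
    fun z v => by rw [h'.eqv, h.eqv]; rfl, fun z hz => by rw [h'.h0 z hz, h.h0 z hz],
    fun z hz => by rw [h'.hq z hz, h.eqv, h.hq z hz, map_add, add_assoc]⟩

theorem Good.at0 (h : Good ψ A e) {w : ℂ} {v : ℤ × ℤ} (hw : ‖w - lat v‖ ≤ 1 / 20) :
    ψ w = w + lat (A v - v) := by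
  have := h.eqv (w - lat v) v
  rw [sub_add_cancel, h.h0 _ hw] at this
  rw [this, map_sub]
  ring

theorem Good.atq (h : Good ψ A e) {w : ℂ} {v : ℤ × ℤ} (hw : ‖w - (qq + lat v)‖ ≤ 1 / 20) :
    ψ w = w + lat (e + A v - v) := by
  have := h.eqv (w - lat v) v
  rw [sub_add_cancel, h.hq (w - lat v) (by rwa [sub_sub, add_comm])] at this
  rw [this, map_sub, map_add]
  ring

theorem Good.lat (h : Good ψ A e) (v : ℤ × ℤ) : ψ (lat v) = lat (A v) := by
  rw [h.at0 (v := v) (by simp), map_sub]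
  ring

theorem Good.cen (h : Good ψ A e) {z : ℂ} (hz : ¬ Cen z) : ¬ Cen (ψ z) := by
  rintro ⟨v, hv | hv⟩
  · exact hz ⟨A.symm v, Or.inl (h.inj (by rw [h.lat, hv, A.apply_symm_apply]))⟩
  · refine hz ⟨A.symm (v - e), Or.inr (h.inj ?_)⟩
    rw [h.eqv, h.hq qq (by simp), hv, A.apply_symm_apply, map_sub]
    ring

theorem Good.ev (h : Good ψ A e) {z : ℂ} (hz : Cen z) : ∀ᶠ w in nhds z, FF (ψ w) = FF w := by
  obtain ⟨v, rfl | rfl⟩ := hz
  · filter_upwards [ev_near _] with w hw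
    rw [h.at0 hw, FF_lat]
  · filter_upwards [ev_near _] with w hw
    rw [h.atq hw, FF_lat]

/-- The periods of a map. -/
def Per (ψ : ℂ → ℂ) (l : ℤ × ℤ →+ ℂ) : Prop :=
  ∃ L : ℂ → ℂ, Continuous L ∧ (∀ z, FF (ψ z) = exp (L z) * FF z) ∧
    ∀ z v, L (z + lat v) = L z + l v

theorem Good.per (h : Good ψ A e) : ∃ l, Per ψ l := by
  obtain ⟨L, h1, h2, h3⟩ := exists_ratio cont_FF (cont_FF.comp h.cont) fun z =>
    (em (Cen z)).symm.imp (fun hz => ⟨FF_ne hz, FF_ne (h.cen hz)⟩) h.ev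
  have h4 : ∀ z v, L (z + T.lat v) = L z + (L (T.lat v) - L 0) := fun z v => by
    have := sub_const' (f := fun z => L (z + T.lat v)) (by fun_prop) h1
      (fun z => by simp only [h3, rat, Function.comp, h.eqv, FF_lat]) z 0
    rw [zero_add] at this
    linear_combination this
  exact ⟨AddMonoidHom.mk' (fun v => L (T.lat v) - L 0) fun a b => by
    rw [map_add, h4]; ring, L, h1, h2, h4⟩

theorem Per.wind {l : ℤ × ℤ →+ ℂ} (h : Per ψ l) {γ : ℝ → ℂ} (hγ : Continuous γ) {v : ℤ × ℤ}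
    (h1 : γ 1 = γ 0 + lat v) (h0 : ∀ t, ¬ Cen (γ t)) :
    Wind (fun t => FF (ψ (γ t)) / FF (γ t)) (l v) := by
  obtain ⟨L, a1, a2, a3⟩ := h
  exact ⟨fun t => L (γ t), a1.comp hγ, fun t => eq_div_of_mul_eq (FF_ne (h0 t)) (a2 _).symm,
    by simp only [h1, a3, add_sub_cancel_left]⟩

theorem Good.per_zero (h : Good ψ A 0) : Per ψ 0 := by
  have hq : ψ qq = qq := by simpa using h.hq qq (by simp)
  have h0 : ψ 0 = 0 := h.h0 0 (by simp)
  obtain ⟨K, h1, h2, -⟩ := exists_ratio cont_phi (cont_phi.comp h.cont) fun z => by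
    by_cases e0 : z = 0
    · subst e0
      right
      filter_upwards [ev_near 0] with w hw
      rw [Function.comp, h.h0 w (by simpa using hw)]
    by_cases e1 : z = qq
    · subst e1
      right
      filter_upwards [ev_near qq] with w hw
      simp [h.hq w hw]
    · exact Or.inl ⟨phi_ne e0 e1, phi_ne (fun e => e0 (h.inj (e.trans h0.symm)))
        fun e => e1 (h.inj (e.trans hq.symm))⟩
  obtain ⟨χ, c1, c2⟩ := h.inv
  obtain ⟨R, hR1, hR⟩ := (((isCompact_closedBall (0 : ℂ) 1).image c1).isBounded).subset_ball_lt 1 0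
  have p1 : ∀ z : ℂ, R ≤ ‖z‖ → phi z = 1 := fun z hz =>
    sub_eq_zero.1 (small_phi.far z (by linarith))
  have p2 : ∀ z : ℂ, R ≤ ‖z‖ → exp (K z) = 1 := fun z hz => by
    have := h2 z
    rw [p1 z hz, mul_one] at this
    rw [← this]
    refine sub_eq_zero.1 (small_phi.far _ (not_lt.1 fun e => ?_))
    have := hR ⟨ψ z, by simpa using e.le, c2 z⟩
    simp at this
    linarith
  have p3 : ∀ z : ℂ, R ≤ ‖z‖ → K z - K R = 0 := fun z hz => by
    have := sub_const (A := ℝ × ℝ) (s := Set.Ici R ×ˢ Set.univ)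
      (isPreconnected_Ici.prod isPreconnected_univ)
      (f := fun x => K (x.1 * exp (x.2 * I))) (g := fun _ => 0) (by fun_prop) (by fun_prop)
      (fun x hx => by
        rw [exp_zero, p2]
        rw [norm_mul, norm_exp_ofReal_mul_I, mul_one, norm_real]
        exact le_trans hx.1 (le_abs_self _)) (a := (‖z‖, arg z)) (b := (R, 0)) ⟨hz, trivial⟩
      ⟨le_refl R, trivial⟩
    simp only [norm_mul_exp_arg_mul_I] at this
    simpa [sub_eq_zero] using this
  have p4 : exp (K R) = 1 := p2 R (by rw [norm_real]; exact le_abs_self _)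
  refine ⟨T.per fun z => K z - K R, cont_per' (by fun_prop) p3, fun z => ?_,
    fun z v => by simp [per_lat]⟩
  have p5 : ∀ v, v ∉ (finite_lat (R + ‖z‖)).toFinset → R ≤ ‖z - T.lat v‖ := fun v hv => by
    have a1 : R + ‖z‖ < ‖T.lat v‖ := by simpa using hv
    have a2 := norm_sub_le z (z - T.lat v)
    rw [sub_sub_cancel] at a2
    linarith
  rw [FF_prod, FF_prod, ← finprod_comp_equiv A.toEquiv, T.per,
    finsum_eq_sum_of_support_subset _ (s := (finite_lat (R + ‖z‖)).toFinset)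
      (fun v hv => by_contra fun e => hv (p3 _ (p5 v e))), exp_sum,
    finprod_eq_prod_of_mulSupport_subset (fun v => phi (z - T.lat v))
      (s := (finite_lat (R + ‖z‖)).toFinset) (fun v hv => by_contra fun e => hv (p1 _ (p5 v e))),
    ← Finset.prod_mul_distrib]
  have p6 : ∀ v, phi (ψ z - T.lat (A.toEquiv v)) =
      exp (K (z - T.lat v) - K R) * phi (z - T.lat v) := fun v => by
    have := h.eqv (z - T.lat v) v
    rw [sub_add_cancel] at this
    rw [exp_sub, p4, div_one, ← h2, this]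
    simp
  simp only [p6]
  exact finprod_eq_prod_of_mulSupport_subset _ fun v hv => by_contra fun e =>
    hv (by simp only [p3 _ (p5 v e), p1 _ (p5 v e), exp_zero, mul_one])

end Pool.Agent.Lib.MP_988b7a_gt.T
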