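import Pool.Agent.Lib.MP_988b7a_gt.T.Shear

/-! Lifts to the plane and linking invariants. -/

namespace Pool.Agent.Lib.MP_988b7a_gt.T

open Complex Real

variable {ψ χ : ℂ → ℂ} {A B : ℤ × ℤ ≃+ ℤ × ℤ} {v : ℤ × ℤ} {c d : ℂ}

/-- The interior of the surface. -/
def Int' : Set Tor := {p | ∀ z, prj z = p → ∀ i, 1 / 20 < ‖z - cen i‖}

theorem isClosed_Holed : IsClosed Holed := by
  have : Holedᶜ = prj '' ⋃ i, Metric.ball (cen i) (1 / 20) := by
    ext p
    simp [Holed, dist_eq_norm, and_comm, -Fin.forall_fin_two, -Fin.exists_fin_two]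
  rw [← isOpen_compl_iff, this]
  exact prj_oq.isOpenMap _ (isOpen_iUnion fun _ => Metric.isOpen_ball)

theorem isOpen_Int : IsOpen Int' := by
  have : Int'ᶜ = prj '' ⋃ i, Metric.closedBall (cen i) (1 / 20) := by
    ext p
    simp [Int', dist_eq_norm, and_comm, -Fin.forall_fin_two, -Fin.exists_fin_two]
  rw [← isClosed_compl_iff, this]
  exact ((isCompact_iUnion fun _ => isCompact_closedBall _ _).image cont_prj).isClosed

theorem Int_sub : Int' ⊆ Holed := fun _ h z hz i => (h z hz i).le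

theorem mem_edge {p : Holed} : p ∈ edge ↔ p.1 ∉ Int' := by
  simp only [edge, Set.mem_iUnion, rim, Set.mem_ofPred_eq]
  constructor
  · rintro ⟨i, z, h1, h2⟩ h
    exact (h z h1 i).ne' h2
  · intro h
    by_contra hc
    push Not at hc
    exact h fun z hz i => lt_of_le_of_ne (p.2 z hz i) (hc i z hz).symm

theorem not_int {z : ℂ} (i : Fin 2) (h : ‖z - cen i‖ ≤ 1 / 20) : prj z ∉ Int' :=
  fun e => (e z rfl i).not_ge h

theorem not_int0 {z : ℂ} (h : ‖z‖ ≤ 1 / 20) : prj z ∉ Int' := not_int 0 (by simpa [cen] using h)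

open Classical in
/-- Extension of a self-map of the surface by the identity. -/
noncomputable def ext (ρ : Holed → Holed) (p : Tor) : Tor := if h : p ∈ Holed then ρ ⟨p, h⟩ else p

theorem ext_mem (ρ : Holed → Holed) (z : Holed) : ext ρ z = ρ z := dif_pos z.2

theorem ext_fix (ρ : homeoFix edge) {z : Tor} (h : z ∉ Int') : ext ρ.1 z = z := by
  unfold ext
  split_ifs with hz
  · rw [ρ.2 _ (mem_edge.2 h)]
  · rfl

theorem ext_mul (ρ η : homeoFix edge) (z : Tor) : ext (ρ * η).1 z = ext ρ.1 (ext η.1 z) := by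
  by_cases hz : z ∈ Holed
  · lift z to Holed using hz
    rw [ext_mem, ext_mem, ext_mem]; rfl
  · have h := fun h => hz (Int_sub h)
    rw [ext_fix _ h, ext_fix η h, ext_fix ρ h]

theorem cont_ext (ρ : homeoFix edge) : Continuous (ext ρ.1) := by
  classical
  exact (continuous_paste isClosed_Holed isOpen_Int Int_sub
    (H := fun x : Unit × Holed => (ρ.1 x.2 : Tor)) (by fun_prop)
    (fun t z hz => by rw [ρ.2 z (mem_edge.2 hz)])).comp (f := fun z => ((), z)) (by fun_prop)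

/-- The lift to the plane that fixes the origin. -/
structure IsLift (ρ : homeoFix edge) (ψ : ℂ → ℂ) : Prop where
  cont : Continuous ψ
  zero : ψ 0 = 0
  lift : ∀ z, prj (ψ z) = ext ρ.1 (prj z)

theorem exists_isLift (ρ : homeoFix edge) : ∃ ψ, IsLift ρ ψ := by
  obtain ⟨ψ, h1, h2, h3⟩ := exists_lift ((cont_ext ρ).comp cont_prj)
    (ext_fix ρ (not_int0 (by simp)))
  exact ⟨ψ, h1, h2, h3⟩

theorem IsLift.unique {ρ : homeoFix edge} (h : IsLift ρ ψ) (h' : IsLift ρ χ) : ψ = χ := by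
  funext w
  have := disc' h.cont h'.cont (fun w => (h.lift w).trans (h'.lift w).symm) w 0
  rw [h.zero, h'.zero] at this
  linear_combination this

theorem IsLift.mul {ρ η : homeoFix edge} (h : IsLift ρ ψ) (h' : IsLift η χ) :
    IsLift (ρ * η) fun z => ψ (χ z) :=
  ⟨h.cont.comp h'.cont, by rw [h'.zero, h.zero], fun w => by rw [h.lift, h'.lift, ext_mul]⟩

theorem isLift_one : IsLift 1 fun z => z :=
  ⟨continuous_id, rfl, fun z => by
    unfold ext
    split_ifs <;> rfl⟩

theorem IsLift.eqv {ρ : homeoFix edge} (h : IsLift ρ ψ) :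
    ∃ a : ℤ × ℤ → ℤ × ℤ, ∀ z v, ψ (z + lat v) = ψ z + lat (a v) := by
  have h1 : ∀ z v, prj (ψ (z + lat v)) = prj (ψ z) := fun z v => by rw [h.lift, h.lift, prj_lat]
  choose a ha using fun v => prj_eq.1 (h1 0 v)
  refine ⟨a, fun z v => ?_⟩
  have := h.cont
  have h2 := disc' (f := fun z => ψ (z + lat v)) (by fun_prop) this (h1 · v) z 0
  rw [ha] at h2
  linear_combination h2

theorem IsLift.hole {ρ : homeoFix edge} (h : IsLift ρ ψ) (i : Fin 2) :
    ∃ e, ψ (cen i) = cen i + lat e ∧ ∀ z, ‖z - cen i‖ ≤ 1 / 20 → ψ z = z + lat e := by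
  have h1 : ∀ z ∈ Metric.closedBall (cen i) (1 / 20), prj (ψ z) = prj z := fun z hz => by
    rw [h.lift, ext_fix _ (not_int i (mem_closedBall_iff_norm.1 hz))]
  have h0 : cen i ∈ Metric.closedBall (cen i) (1 / 20) := by simp
  obtain ⟨e, he⟩ := prj_eq.1 (h1 _ h0)
  refine ⟨e, he, fun z hz => ?_⟩
  have := disc (convex_closedBall _ _).isPreconnected h.cont.continuousOn continuousOn_id h1
    (mem_closedBall_iff_norm.2 hz) h0
  rw [he] at this
  simp only [id] at this
  linear_combination this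

theorem IsLift.good {ρ : homeoFix edge} (h : IsLift ρ ψ) : ∃ A e, Good ψ A e := by
  obtain ⟨χ, h'⟩ := exists_isLift ρ⁻¹
  have i1 : ∀ z, χ (ψ z) = z := congrFun ((inv_mul_cancel ρ ▸ h'.mul h).unique isLift_one)
  have i2 : ∀ z, ψ (χ z) = z := congrFun ((mul_inv_cancel ρ ▸ h.mul h').unique isLift_one)
  obtain ⟨a, ha⟩ := h.eqv
  obtain ⟨b, hb⟩ := h'.eqv
  have a1 : ∀ v, ψ (lat v) = lat (a v) := fun v => by simpa [h.zero] using ha 0 v
  have b1 : ∀ v, χ (lat v) = lat (b v) := fun v => by simpa [h'.zero] using hb 0 v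
  obtain ⟨e0, c1, c2⟩ := h.hole 0
  obtain ⟨e, -, c3⟩ := h.hole 1
  have c4 : lat e0 = 0 := by simpa [cen, h.zero] using c1.symm
  exact ⟨⟨⟨a, b, fun v => lat_inj (by rw [← b1, ← a1, i1]), fun v => lat_inj (by
    rw [← a1, ← b1, i2])⟩, fun u v => lat_inj (by rw [← a1, map_add, ha, a1, map_add])⟩, e,
    h.cont, ⟨χ, h'.cont, i1⟩, ha, fun z hz => by simpa [c4] using c2 z (by simpa [cen] using hz),
    c3⟩

/-- The value of the invariant attached to a lattice point. -/
def Val (ψ : ℂ → ℂ) (v : ℤ × ℤ) (c : ℂ) : Prop :=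
  ∃ L : ℂ → ℂ, Continuous L ∧ (∀ z, ψ z - ψ (lat v) = cexp (L z) * (z - lat v)) ∧
    c = L qq - L 0 - log (1 - qq / ψ (lat v)) + log (1 - qq / lat v)

theorem ne_lat (hv : v ≠ 0) {z : ℂ} (h : z ∈ Metric.closedBall (0 : ℂ) (1 / 2)) :
    z - lat v ≠ 0 := fun e => by
  rw [sub_eq_zero.1 e, mem_closedBall_zero_iff] at h
  linarith [one_le_lat hv]

theorem qq_mem : qq ∈ Metric.closedBall (0 : ℂ) (1 / 2) := mem_closedBall_zero_iff.2 norm_qq
theorem zero_mem' : (0 : ℂ) ∈ Metric.closedBall (0 : ℂ) (1 / 2) := by simp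

theorem Val.unique (hv : v ≠ 0) (h : Val ψ v c) (h' : Val ψ v d) : c = d := by
  obtain ⟨L, a1, a2, rfl⟩ := h
  obtain ⟨M, b1, b2, rfl⟩ := h'
  have := sub_const (convex_closedBall _ _).isPreconnected a1.continuousOn b1.continuousOn
    (fun z hz => mul_right_cancel₀ (ne_lat hv hz) ((a2 z).symm.trans (b2 z))) qq_mem zero_mem'
  linear_combination this

theorem Good.val (h : Good ψ A 0) (v : ℤ × ℤ) : ∃ c, Val ψ v c := by
  have := h.cont
  obtain ⟨L, h1, h2, -⟩ := exists_ratio (g := fun z => z - T.lat v)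
    (g' := fun z => ψ z - ψ (T.lat v)) (by fun_prop) (by fun_prop) fun z => by
      by_cases e : z = T.lat v
      · subst e
        right
        filter_upwards [ev_near _] with w hw
        rw [h.at0 hw, h.lat, map_sub]
        ring
      · exact Or.inl ⟨sub_ne_zero.2 e, sub_ne_zero.2 (h.inj.ne e)⟩
  exact ⟨_, L, h1, h2, rfl⟩

theorem Good.qq (h : Good ψ A 0) : ψ qq = qq := by simpa using h.hq T.qq (by simp)
theorem Good.zero (h : Good ψ A 0) : ψ 0 = 0 := h.h0 0 (by simp)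

theorem Val.mul (g : Good χ B 0) (h : Val ψ (B v) c) (h' : Val χ v d) :
    Val (fun z => ψ (χ z)) v (c + d) := by
  obtain ⟨L, a1, a2, rfl⟩ := h
  obtain ⟨M, b1, b2, rfl⟩ := h'
  refine ⟨fun z => L (χ z) + M z, (a1.comp g.cont).add b1, fun z => ?_, ?_⟩
  · simp only [Complex.exp_add, mul_assoc, ← b2, g.lat, a2]
  · simp only [g.qq, g.zero, g.lat]
    ring

theorem slit_one_sub {z w : ℂ} (h : ‖z‖ < ‖w‖) : 1 - z / w ∈ slitPlane := by
  rw [sub_eq_add_neg]
  refine mem_slitPlane_of_norm_lt_one ?_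
  rwa [norm_neg, norm_div, div_lt_one ((norm_nonneg _).trans_lt h)]

theorem Good.fin (h : Good ψ A 0) : {v | v ≠ 0 ∧ ¬ Val ψ v 0}.Finite := by
  obtain ⟨R, -, hR⟩ :=
    ((isCompact_closedBall (0 : ℂ) (1 / 2)).image h.cont).isBounded.subset_ball_lt 0 0
  refine ((finite_lat R).preimage A.injective.injOn).subset fun v ⟨hv, hc⟩ =>
    (not_lt.1 fun e => hc ?_ : ‖T.lat (A v)‖ ≤ R)
  obtain ⟨c, L, a1, a2, rfl⟩ := h.val v
  have b1 : ∀ z ∈ Metric.closedBall (0 : ℂ) (1 / 2), 1 - ψ z / T.lat (A v) ∈ slitPlane :=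
    fun z hz => slit_one_sub ((mem_ball_zero_iff.1 (hR ⟨z, hz, rfl⟩)).trans e)
  have b2 : ∀ z ∈ Metric.closedBall (0 : ℂ) (1 / 2), 1 - z / T.lat v ∈ slitPlane :=
    fun z hz => slit_one_sub (by linarith [mem_closedBall_zero_iff.1 hz, one_le_lat hv])
  have b3 : T.lat v ≠ 0 := (map_ne_zero_iff _ lat_inj).2 hv
  have b4 : T.lat (A v) ≠ 0 := (map_ne_zero_iff _ lat_inj).2 (by simpa using hv)
  have hc := h.cont
  have := sub_const (convex_closedBall _ _).isPreconnected a1.continuousOn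
    (g := fun z => log (1 - ψ z / T.lat (A v)) - log (1 - z / T.lat v) +
      log (T.lat (A v) / T.lat v))
    (((ContinuousOn.clog (by fun_prop) b1).sub (ContinuousOn.clog (by fun_prop) b2)).add
      continuousOn_const) (fun z hz => by
      have c1 := slitPlane_ne_zero (b2 z hz)
      have c2 := ne_lat hv hz
      rw [Complex.exp_add, Complex.exp_sub, Complex.exp_log (slitPlane_ne_zero (b1 z hz)),
        Complex.exp_log c1, Complex.exp_log (div_ne_zero b4 b3), ← mul_left_inj' c2, ← a2, h.lat,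
        show z - T.lat v = -T.lat v * (1 - z / T.lat v) by field_simp; ring]
      generalize 1 - z / T.lat v = w at c1 ⊢
      field_simp
      ring) qq_mem zero_mem'
  refine ⟨L, a1, a2, ?_⟩
  simp only [h.qq, h.zero, zero_div, sub_zero, Complex.log_one] at this
  rw [h.lat]
  linear_combination -this

/-- Computation of the invariant by an isotopy of the plane. -/
theorem val_of_isotopy (hv : v ≠ 0) {R : ℝ × ℂ → ℂ} (hc : Continuous R) (h0 : ∀ w, R (0, w) = w)
    (h1 : Good (fun w => R (1, w)) (.refl _) 0) (hi : ∀ t, Function.Injective fun w => R (t, w))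
    {a b : ℂ} (ha : Wind (fun t => R (t, 0) - R (t, lat v)) a)
    (hb : Wind (fun t => R (t, qq) - R (t, lat v)) b) : Val (fun w => R (1, w)) v (b - a) := by
  obtain ⟨c, L, a1, a2, -⟩ := h1.val v
  have hs : ∀ s, (cl s : ℂ) * qq - lat v ≠ 0 := fun s => ne_lat hv (by
    rw [mem_closedBall_zero_iff, norm_mul, norm_real, Real.norm_of_nonneg (cl_nonneg s)]
    nlinarith [norm_qq, cl_le s, cl_nonneg s, norm_nonneg qq])
  have c0 : (cl 0 : ℂ) * qq = 0 := by simp [cl_low]
  have c1 : (cl 1 : ℂ) * qq = qq := by simp [cl_high]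
  have := wind_square (G := fun x => (R (x.1, cl x.2 * qq) - R (x.1, lat v)) *
      (cl x.2 * qq - lat v)⁻¹)
    (Continuous.mul (by fun_prop) (Continuous.inv₀ (by fun_prop) (fun x => hs _)))
    (fun x => mul_ne_zero (sub_ne_zero.2 ((hi _).ne (sub_ne_zero.1 (hs _)))) (inv_ne_zero (hs _)))
    (by simpa only [c0] using ha.mul (wind_const (inv_ne_zero (hs 0))))
    (by simpa only [c1] using hb.mul (wind_const (inv_ne_zero (hs 1))))
    (c := 0) (d := L qq - L 0)
    (by simpa only [h0, mul_inv_cancel₀ (hs _)] using wind_const one_ne_zero)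
    ⟨fun s => L (cl s * qq), by fun_prop, fun s => by
      simp only [a2, mul_inv_cancel_right₀ (hs s)], by simp only [c0, c1]⟩
  refine ⟨L, a1, a2, ?_⟩
  simp only [show R (1, lat v) = lat v from h1.lat v]
  linear_combination -this

theorem val_isotopic {ρ : homeoFix edge} (h : IsotopicToId edge ρ) (g : IsLift ρ ψ) (hv : v ≠ 0) :
    Val ψ v 0 := by
  classical
  obtain ⟨H, h0, h1, h2⟩ := h
  choose e he using h2
  let pr : ℝ → unitInterval := Set.projIcc 0 1 zero_le_one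
  have hpr : Continuous pr := continuous_projIcc
  have hE : Continuous (fun x : ℝ × Tor => ext (e (pr x.1)).1 x.2) := by
    refine (continuous_paste isClosed_Holed isOpen_Int Int_sub
      (H := fun x : ℝ × Holed => (H (pr x.1, x.2) : Tor)) (by fun_prop) ?_).congr ?_
    · intro t z hz
      rw [he, (e _).2 z (mem_edge.2 hz)]
    · intro x
      simp only [ext, he]
  obtain ⟨R, a1, a0, a2⟩ := exists_lift (G := fun x : ℝ × ℂ => ext (e (pr x.1)).1 (prj x.2))
    (hE.comp (f := fun x : ℝ × ℂ => (x.1, prj x.2)) (by fun_prop))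
    (ext_fix _ (not_int0 (by simp)))
  have b1 : ∀ t w, prj w ∉ Int' → R (t, w) = R (0, w) := fun t w hw => by
    have := disc' (f := fun t => R (t, w)) (g := fun _ => w) (by fun_prop) continuous_const
      (fun t => by rw [a2, ext_fix _ hw]) t 0
    linear_combination this
  have b3 : ∀ t, IsLift (e (pr t)) fun w => R (t, w) := fun t =>
    ⟨by fun_prop, (b1 t 0 (not_int0 (by simp))).trans a0, fun w => a2 _⟩
  have b0 : e (pr 0) = 1 := Subtype.ext (Homeomorph.ext fun x => by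
    rw [← he, show pr 0 = 0 by simp [pr], h0]; rfl)
  have b2 : ∀ w, R (0, w) = w := congrFun ((b0 ▸ b3 0).unique isLift_one)
  have b4 : e (pr 1) = ρ := Subtype.ext (Homeomorph.ext fun x => by
    rw [← he, show pr 1 = 1 by simp [pr], h1])
  obtain rfl := (b4 ▸ b3 1).unique g
  have b5 : ∀ t u, R (t, lat u) = lat u := fun t u => by
    rw [b1, b2]
    rw [← zero_add (lat u), prj_lat]
    exact not_int0 (by simp)
  have b6 : ∀ t, R (t, qq) = qq := fun t => by
    rw [b1 _ _ (not_int 1 (by simp [cen, qq])), b2]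
  have b7 : ∀ t, R (t, 0) = 0 := fun t => (b3 t).zero
  obtain ⟨A, e', b8⟩ := g.good
  obtain rfl : A = .refl _ := AddEquiv.ext fun u => lat_inj ((b8.lat u).symm.trans (b5 1 u))
  obtain rfl : e' = 0 := lat_inj (by simpa [b6] using b8.hq qq (by simp))
  simpa using val_of_isotopy hv a1 b2 b8 (fun t => by
    obtain ⟨_, _, h⟩ := (b3 t).good
    exact h.inj) (a := 0) (b := 0)
    (by simpa only [b5, b7] using wind_const (ne_lat hv zero_mem'))
    (by simpa only [b5, b6] using wind_const (ne_lat hv qq_mem))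

open Classical in
/-- The invariant, cut down to the nonzero multiples of `p`. -/
noncomputable def kk (p : ℕ) (ψ : ℂ → ℂ) (v : ℤ × ℤ) : ℂ :=
  if v ≠ 0 ∧ ∃ u, v = p • u then epsilon (Val ψ v) else 0

open Classical in
theorem kk_eq (p : ℕ) (h : v ≠ 0 → Val ψ v c) :
    kk p ψ v = if v ≠ 0 ∧ ∃ u, v = p • u then c else 0 := by
  unfold kk
  split_ifs with e
  · exact (epsilon_spec ⟨c, h e.1⟩).unique e.1 (h e.1)
  · rfl

theorem Good.kk_fin (h : Good ψ A 0) (p : ℕ) : (Function.support (kk p ψ)).Finite :=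
  h.fin.subset fun v hv => by
    by_contra e
    exact hv (by rw [kk_eq p (c := 0) fun a => not_not.1 fun b => e ⟨a, b⟩, ite_self])

theorem sum_mul (h : Good ψ A 0) (g : Good χ B 0) (p : ℕ) :
    ∑ᶠ v, kk p (fun z => ψ (χ z)) v = ∑ᶠ v, kk p ψ v + ∑ᶠ v, kk p χ v := by
  rw [← finsum_comp_equiv B.toEquiv (f := kk p ψ)]
  refine (finsum_congr fun v => ?_).trans (finsum_add_distrib
    ((h.kk_fin p).preimage B.injective.injOn) (g.kk_fin p))
  obtain ⟨c, hc⟩ := h.val (B v)
  obtain ⟨d, hd⟩ := g.val v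
  have e : (B v ≠ 0 ∧ ∃ u, B v = p • u) ↔ (v ≠ 0 ∧ ∃ u, v = p • u) := and_congr (by simp)
    ⟨fun ⟨u, hu⟩ => ⟨B.symm u, by rw [← map_nsmul, ← hu, B.symm_apply_apply]⟩,
      fun ⟨u, hu⟩ => ⟨B u, by rw [hu, map_nsmul]⟩⟩
  change _ = kk p ψ (B v) + _
  rw [kk_eq p fun _ => hc.mul g hd, kk_eq p fun _ => hc, kk_eq p fun _ => hd]
  by_cases e' : v ≠ 0 ∧ ∃ u, v = p • u
  · rw [if_pos e', if_pos e', if_pos (e.2 e')]
  · rw [if_neg e', if_neg e', if_neg (mt e.1 e'), add_zero]

end Pool.Agent.Lib.MP_988b7a_gt.T
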