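import Pool.Agent.Lib.MP_988b7a_gt.T.Defs

/-! Continuous logarithms, the lattice, lifting and periodisation. -/

namespace Pool.Agent.Lib.MP_988b7a_gt.T

open Complex unitInterval

theorem exists_log {E : Type} [NormedAddCommGroup E] [NormedSpace ℝ E] {h : E → ℂ}
    (hc : Continuous h) (h0 : ∀ x, h x ≠ 0) : ∃ L : E → ℂ, Continuous L ∧ ∀ x, exp (L x) = h x := by
  obtain ⟨F, ⟨_, hF⟩, _⟩ := isCoveringMap_exp.existsUnique_continuousMap_lifts
    (⟨fun x => ⟨h x, h0 x⟩, hc.subtype_mk _⟩ : C(E, {z : ℂ // z ≠ 0})) 0 (log (h 0))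
    (Subtype.ext (exp_log (h0 0)))
  exact ⟨F, F.continuous, fun x => congrArg Subtype.val (congrFun hF x)⟩

theorem exists_log_homotopy {A : Type} [TopologicalSpace A] {H : I × A → ℂ} (hc : Continuous H)
    (h0 : ∀ x, H x ≠ 0) (h1 : ∀ a, H (0, a) = 1) :
    ∃ L : I × A → ℂ, Continuous L ∧ (∀ x, exp (L x) = H x) ∧ ∀ a, L (0, a) = 0 := by
  let H' : C(I × A, {z : ℂ // z ≠ 0}) := ⟨fun x => ⟨H x, h0 x⟩, hc.subtype_mk _⟩
  have h2 : ∀ a, H' (0, a) = ⟨exp ((0 : C(A, ℂ)) a), exp_ne_zero _⟩ :=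
    fun a => Subtype.ext (by simp [H', h1])
  exact ⟨isCoveringMap_exp.liftHomotopy H' 0 h2, ContinuousMap.continuous _,
    fun x => congrArg Subtype.val (congrFun (isCoveringMap_exp.liftHomotopy_lifts H' 0 h2) x),
    fun a => isCoveringMap_exp.liftHomotopy_zero H' 0 h2 a⟩

theorem sub_const {A : Type} [TopologicalSpace A] {s : Set A} (hs : IsPreconnected s)
    {f g : A → ℂ} (hf : ContinuousOn f s) (hg : ContinuousOn g s)
    (h : ∀ a ∈ s, exp (f a) = exp (g a)) {a b : A} (ha : a ∈ s) (hb : b ∈ s) :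
    f a - g a = f b - g b :=
  isCoveringMap_exp.constOn_of_comp hs (hf.sub hg)
    (fun x hx y hy => Subtype.ext (by simp [exp_sub, h x hx, h y hy])) ha hb

theorem sub_const' {A : Type} [TopologicalSpace A] [PreconnectedSpace A] {f g : A → ℂ}
    (hf : Continuous f) (hg : Continuous g) (h : ∀ a, exp (f a) = exp (g a)) (a b : A) :
    f a - g a = f b - g b :=
  sub_const isPreconnected_univ hf.continuousOn hg.continuousOn (fun a _ => h a) trivial trivial

/-- `c` is the variation of a continuous logarithm of `A` between `0` and `1`. -/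
def Wind (A : ℝ → ℂ) (c : ℂ) : Prop :=
  ∃ α : ℝ → ℂ, Continuous α ∧ (∀ t, exp (α t) = A t) ∧ α 1 - α 0 = c

theorem Wind.unique {A : ℝ → ℂ} {c c' : ℂ} (h : Wind A c) (h' : Wind A c') : c = c' := by
  obtain ⟨α, h1, h2, rfl⟩ := h
  obtain ⟨β, h3, h4, rfl⟩ := h'
  have := sub_const' h1 h3 (fun t => (h2 t).trans (h4 t).symm) 1 0
  linear_combination this

/-- The boundary of a square. -/
theorem wind_square {G : ℝ × ℝ → ℂ} (hc : Continuous G) (h0 : ∀ x, G x ≠ 0) {a b c d : ℂ}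
    (ha : Wind (fun t => G (t, 0)) a) (hb : Wind (fun t => G (t, 1)) b)
    (hc' : Wind (fun t => G (0, t)) c) (hd : Wind (fun t => G (1, t)) d) : a + d = c + b := by
  obtain ⟨L, h1, h2⟩ := exists_log hc h0
  rw [ha.unique ⟨fun t => L (t, 0), by fun_prop, fun _ => h2 _, rfl⟩,
    hb.unique ⟨fun t => L (t, 1), by fun_prop, fun _ => h2 _, rfl⟩,
    hc'.unique ⟨fun t => L (0, t), by fun_prop, fun _ => h2 _, rfl⟩,
    hd.unique ⟨fun t => L (1, t), by fun_prop, fun _ => h2 _, rfl⟩]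
  ring

theorem exists_wind {A : ℝ → ℂ} (hc : Continuous A) (h0 : ∀ x, A x ≠ 0) : ∃ c, Wind A c := by
  obtain ⟨L, h1, h2⟩ := exists_log hc h0
  exact ⟨_, L, h1, h2, rfl⟩

theorem Wind.mul {A B : ℝ → ℂ} {a b : ℂ} (ha : Wind A a) (hb : Wind B b) :
    Wind (fun t => A t * B t) (a + b) := by
  obtain ⟨α, h1, h2, rfl⟩ := ha
  obtain ⟨β, h3, h4, rfl⟩ := hb
  exact ⟨fun t => α t + β t, h1.add h3, fun t => by rw [exp_add, h2, h4], by ring⟩

theorem wind_slit {A : ℝ → ℂ} (hc : Continuous A) (h0 : ∀ t, A t ∈ slitPlane) (h1 : A 1 = A 0) :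
    Wind A 0 :=
  ⟨fun t => log (A t), hc.clog h0, fun t => exp_log (slitPlane_ne_zero (h0 t)), by simp [h1]⟩

theorem wind_const {a : ℂ} (h : a ≠ 0) : Wind (fun _ => a) 0 :=
  ⟨fun _ => log a, continuous_const, fun _ => exp_log h, by simp⟩

theorem Wind.div {A B : ℝ → ℂ} {a b : ℂ} (ha : Wind A a) (hb : Wind B b) :
    Wind (fun t => A t / B t) (a - b) := by
  obtain ⟨α, h1, h2, rfl⟩ := ha
  obtain ⟨β, h3, h4, rfl⟩ := hb
  exact ⟨fun t => α t - β t, h1.sub h3, fun t => by rw [exp_sub, h2, h4], by ring⟩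

theorem Wind.conj {A : ℝ → ℂ} {a : ℂ} (ha : Wind A a) :
    Wind (fun t => starRingEnd ℂ (A t)) (starRingEnd ℂ a) := by
  obtain ⟨α, h1, h2, rfl⟩ := ha
  exact ⟨fun t => starRingEnd ℂ (α t), continuous_conj.comp h1,
    fun t => by rw [exp_conj, h2], (map_sub _ _ _).symm⟩

theorem Wind.congr {A B : ℝ → ℂ} {a : ℂ} (ha : Wind A a) (h : ∀ t, A t = B t) : Wind B a :=
  funext h ▸ ha

/-- A ratio with removable common zeros. -/
noncomputable def rat (g g' : ℂ → ℂ) (z : ℂ) : ℂ := 1 + (g' z - g z) / g z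

theorem cont_rat {g g' : ℂ → ℂ} (hg : Continuous g) (hg' : Continuous g')
    (h : ∀ z, g z ≠ 0 ∨ ∀ᶠ w in nhds z, g' w = g w) : Continuous (rat g g') := by
  rw [continuous_iff_continuousAt]
  intro z
  rcases h z with h | h
  · exact continuousAt_const.add (ContinuousAt.div (by fun_prop) (by fun_prop) h)
  · refine (continuousAt_const (y := (1 : ℂ))).congr ?_
    filter_upwards [h] with w hw
    simp [rat, hw]

theorem rat_mul {g g' : ℂ → ℂ} {z : ℂ} (h : g z ≠ 0 ∨ g' z = g z) : g' z = rat g g' z * g z := by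
  rcases h with h | h
  · rw [rat, one_add_div h, add_sub_cancel, div_mul_cancel₀ _ h]
  · simp [rat, h]

theorem rat_ne {g g' : ℂ → ℂ} {z : ℂ} (h : (g z ≠ 0 ∧ g' z ≠ 0) ∨ g' z = g z) :
    rat g g' z ≠ 0 := by
  rcases h with h | h
  · exact fun e => h.2 (by rw [rat_mul (g' := g') (Or.inl h.1), e, zero_mul])
  · simp [rat, h]

theorem exists_ratio {g g' : ℂ → ℂ} (hg : Continuous g) (hg' : Continuous g')
    (h : ∀ z, (g z ≠ 0 ∧ g' z ≠ 0) ∨ ∀ᶠ w in nhds z, g' w = g w) :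
    ∃ L : ℂ → ℂ, Continuous L ∧ (∀ z, g' z = exp (L z) * g z) ∧ ∀ z, exp (L z) = rat g g' z := by
  obtain ⟨L, h1, h2⟩ := exists_log (cont_rat hg hg' fun z => (h z).imp_left And.left)
    fun z => rat_ne ((h z).imp_right fun e => e.self_of_nhds)
  refine ⟨L, h1, fun z => ?_, h2⟩
  rw [h2]
  exact rat_mul ((h z).imp And.left fun e => e.self_of_nhds)

theorem continuous_paste {T X : Type} [TopologicalSpace T] [TopologicalSpace X] {S U : Set X}
    (hS : IsClosed S) (hU : IsOpen U) (hUS : U ⊆ S) [DecidablePred (· ∈ S)] {H : T × S → X}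
    (hH : Continuous H) (h : ∀ t (z : S), z.1 ∉ U → H (t, z) = z) :
    Continuous (fun x : T × X => if hz : x.2 ∈ S then H (x.1, ⟨x.2, hz⟩) else x.2) := by
  rw [← continuousOn_univ]
  have e : (Set.univ : Set (T × X)) = Prod.snd ⁻¹' S ∪ Prod.snd ⁻¹' Uᶜ := by
    ext x
    by_cases hx : x.2 ∈ U
    · simp [hUS hx]
    · simp [hx]
  rw [e]
  refine ContinuousOn.union_of_isClosed ?_ ?_ (hS.preimage continuous_snd)
    (hU.isClosed_compl.preimage continuous_snd)
  · rw [continuousOn_iff_continuous_domRestrict]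
    have : Continuous (fun x : ↥(Prod.snd ⁻¹' S : Set (T × X)) => H (x.1.1, ⟨x.1.2, x.2⟩)) := by
      fun_prop
    refine this.congr (fun x => ?_)
    have hx : x.1.2 ∈ S := x.2
    show _ = dite _ _ _
    rw [dif_pos hx]
  · refine continuous_snd.continuousOn.congr (fun x hx => ?_)
    by_cases hz : x.2 ∈ S
    · simp only [dif_pos hz]; exact h _ _ hx
    · simp only [dif_neg hz]

/-- The lattice. -/
noncomputable def lat : ℤ × ℤ →+ ℂ where
  toFun v := v.1 + v.2 * Complex.I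
  map_zero' := by simp
  map_add' a b := by simp; ring

@[simp] theorem lat_re (v : ℤ × ℤ) : (lat v).re = v.1 := by simp [lat]
@[simp] theorem lat_im (v : ℤ × ℤ) : (lat v).im = v.2 := by simp [lat]

theorem one_le_lat {v : ℤ × ℤ} (h : v ≠ 0) : 1 ≤ ‖lat v‖ := by
  by_cases h1 : v.1 = 0
  · have h2 : v.2 ≠ 0 := fun h2 => h (Prod.ext h1 h2)
    refine le_trans ?_ (abs_im_le_norm _)
    rw [lat_im]
    exact_mod_cast Int.one_le_abs h2
  · refine le_trans ?_ (abs_re_le_norm _)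
    rw [lat_re]
    exact_mod_cast Int.one_le_abs h1

theorem lat_inj : Function.Injective lat := (injective_iff_map_eq_zero _).2 fun v h => by
  by_contra h1
  have := one_le_lat h1
  rw [h, norm_zero] at this
  linarith

theorem finite_lat (R : ℝ) : {v | ‖lat v‖ ≤ R}.Finite := by
  refine ((Set.finite_Icc (-⌈R⌉) ⌈R⌉).prod (Set.finite_Icc (-⌈R⌉) ⌈R⌉)).subset fun v hv => ?_
  have h1 := ((abs_re_le_norm _).trans hv).trans (Int.le_ceil R)
  have h2 := ((abs_im_le_norm _).trans hv).trans (Int.le_ceil R)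
  rw [lat_re] at h1
  rw [lat_im] at h2
  exact ⟨abs_le.1 (by exact_mod_cast h1), abs_le.1 (by exact_mod_cast h2)⟩

theorem prj_eq {z w : ℂ} : prj z = prj w ↔ ∃ v, z = w + lat v := by
  have key : ∀ a b : ℝ, (a : UnitAddCircle) = b ↔ ∃ n : ℤ, a = b + n := fun a b => by
    rw [← sub_eq_zero, ← AddCircle.coe_sub, AddCircle.coe_eq_zero_iff]
    simp only [zsmul_eq_mul, mul_one]
    exact exists_congr fun n => ⟨fun h => by linarith, fun h => by linarith⟩
  simp only [prj, Prod.mk.injEq, key]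
  constructor
  · rintro ⟨⟨m, h1⟩, n, h2⟩
    exact ⟨(m, n), Complex.ext (by simpa using h1) (by simpa using h2)⟩
  · rintro ⟨v, rfl⟩
    exact ⟨⟨v.1, by simp⟩, v.2, by simp⟩

theorem prj_lat (z : ℂ) (v : ℤ × ℤ) : prj (z + lat v) = prj z := prj_eq.2 ⟨v, rfl⟩

theorem prj_oq : IsOpenQuotientMap prj :=
  (QuotientAddGroup.isOpenQuotientMap_mk.prodMap QuotientAddGroup.isOpenQuotientMap_mk).comp
    equivRealProdCLM.toHomeomorph.isOpenQuotientMap

@[fun_prop] theorem cont_prj : Continuous prj := prj_oq.continuous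

/-- A section of the projection. -/
noncomputable def sec : Tor → ℂ := Function.surjInv prj_oq.surjective

theorem prj_sec (p : Tor) : prj (sec p) = p := Function.surjInv_eq _ p

theorem sec_prj {Y : Type} {g : ℂ → Y} (h : ∀ z v, g (z + lat v) = g z) (z : ℂ) :
    g (sec (prj z)) = g z := by
  obtain ⟨v, hv⟩ := prj_eq.1 (prj_sec (prj z))
  rw [hv, h]

theorem cont_sec {Y : Type} [TopologicalSpace Y] {g : ℂ → Y} (hg : Continuous g)
    (h : ∀ z v, g (z + lat v) = g z) : Continuous fun p => g (sec p) :=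
  prj_oq.continuous_comp_iff.1 (hg.congr fun z => (sec_prj h z).symm)

theorem disc {A : Type} [TopologicalSpace A] {s : Set A} (hs : IsPreconnected s)
    {f g : A → ℂ} (hf : ContinuousOn f s) (hg : ContinuousOn g s)
    (h : ∀ a ∈ s, prj (f a) = prj (g a)) {a b : A} (ha : a ∈ s) (hb : b ∈ s) :
    f a - g a = f b - g b := by
  have key : ∀ x ∈ s, prj (f x - g x) = prj 0 := fun x hx => by
    obtain ⟨v, hv⟩ := prj_eq.1 (h x hx)
    exact prj_eq.2 ⟨v, by rw [hv]; ring⟩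
  refine Complex.ext ?_ ?_
  · exact (AddCircle.isCoveringMap_coe (1 : ℝ)).constOn_of_comp (g := fun x => (f x - g x).re) hs
      (continuous_re.comp_continuousOn (hf.sub hg))
      (fun x hx y hy => congrArg Prod.fst ((key x hx).trans (key y hy).symm)) ha hb
  · exact (AddCircle.isCoveringMap_coe (1 : ℝ)).constOn_of_comp (g := fun x => (f x - g x).im) hs
      (continuous_im.comp_continuousOn (hf.sub hg))
      (fun x hx y hy => congrArg Prod.snd ((key x hx).trans (key y hy).symm)) ha hb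

theorem disc' {A : Type} [TopologicalSpace A] [PreconnectedSpace A] {f g : A → ℂ}
    (hf : Continuous f) (hg : Continuous g) (h : ∀ a, prj (f a) = prj (g a)) (a b : A) :
    f a - g a = f b - g b :=
  disc isPreconnected_univ hf.continuousOn hg.continuousOn (fun a _ => h a) trivial trivial

theorem exists_lift {E : Type} [NormedAddCommGroup E] [NormedSpace ℝ E] {G : E → Tor}
    (hG : Continuous G) (h0 : G 0 = prj 0) :
    ∃ ψ : E → ℂ, Continuous ψ ∧ ψ 0 = 0 ∧ ∀ x, prj (ψ x) = G x := by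
  obtain ⟨a, ⟨a0, ha⟩, -⟩ := (AddCircle.isCoveringMap_coe (1 : ℝ)).existsUnique_continuousMap_lifts
    (⟨fun x => (G x).1, hG.fst⟩ : C(E, UnitAddCircle)) 0 0 (congrArg Prod.fst h0.symm)
  obtain ⟨b, ⟨b0, hb⟩, -⟩ := (AddCircle.isCoveringMap_coe (1 : ℝ)).existsUnique_continuousMap_lifts
    (⟨fun x => (G x).2, hG.snd⟩ : C(E, UnitAddCircle)) 0 0 (congrArg Prod.snd h0.symm)
  refine ⟨fun x => a x + b x * Complex.I, by fun_prop, by simp [a0, b0], fun x => Prod.ext ?_ ?_⟩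
  · simpa [prj] using congrFun ha x
  · simpa [prj] using congrFun hb x

/-- Periodisation. -/
noncomputable def per (κ : ℂ → ℂ) (z : ℂ) : ℂ := ∑ᶠ v, κ (z - lat v)

theorem per_lat (κ : ℂ → ℂ) (z : ℂ) (u : ℤ × ℤ) : per κ (z + lat u) = per κ z := by
  rw [per, per, ← finsum_comp_equiv (Equiv.addRight u)]
  simp

theorem cont_per {A : Type} [TopologicalSpace A] {κ : A → ℂ → ℂ} {R : ℝ}
    (hκ : Continuous fun x : A × ℂ => κ x.1 x.2) (hR : ∀ a z, R ≤ ‖z‖ → κ a z = 0) :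
    Continuous fun x : A × ℂ => per (κ x.1) x.2 := by
  refine continuous_finsum (fun v => hκ.comp (f := fun x : A × ℂ => (x.1, x.2 - lat v))
    (by fun_prop)) fun x => ⟨{y | ‖y.2‖ < ‖x.2‖ + 1},
      (isOpen_lt (by fun_prop) (by fun_prop)).mem_nhds (lt_add_one ‖x.2‖),
      (finite_lat (R + (‖x.2‖ + 1))).subset ?_⟩
  rintro v ⟨y, h1, h2⟩
  have h3 : ‖y.2 - lat v‖ < R := not_le.1 fun h => h1 (hR _ _ h)
  have h4 := norm_sub_le y.2 (y.2 - lat v)
  rw [sub_sub_cancel] at h4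
  change ‖y.2‖ < _ at h2
  change ‖lat v‖ ≤ _
  linarith

theorem cont_per' {κ : ℂ → ℂ} {R : ℝ} (hκ : Continuous κ) (hR : ∀ z, R ≤ ‖z‖ → κ z = 0) :
    Continuous (per κ) :=
  (cont_per (A := Unit) (κ := fun _ => κ) (hκ.comp continuous_snd) fun _ => hR).comp
    (f := fun z => ((), z)) (by fun_prop)

/-- The second centre. -/
noncomputable def qq : ℂ := (1 + Complex.I) / 4

@[simp] theorem qq_re : qq.re = 1 / 4 := by simp [qq]
@[simp] theorem qq_im : qq.im = 1 / 4 := by simp [qq]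

theorem norm_qq : ‖qq‖ ≤ 1 / 2 := (norm_le_abs_re_add_abs_im _).trans (by norm_num)

theorem norm_qq' : 1 / 4 ≤ ‖qq‖ := le_trans (by norm_num) (abs_re_le_norm _)

theorem norm_qq2 : ‖qq / 2‖ ≤ 1 / 4 := by
  rw [norm_div, Complex.norm_ofNat]
  linarith [norm_qq]

theorem far {z : ℂ} {v : ℤ × ℤ} (h : ‖z - qq / 2‖ ≤ 1 / 2) (hv : v ≠ 0) :
    1 / 2 ≤ ‖z - lat v - qq / 2‖ := by
  have h1 := norm_sub_le (z - qq / 2) (z - lat v - qq / 2)
  rw [show z - qq / 2 - (z - lat v - qq / 2) = lat v by ring] at h1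
  linarith [one_le_lat hv]

/-- Vanishing outside the basic disc. -/
def Small (κ : ℂ → ℂ) : Prop := ∀ z, 1 / 2 ≤ ‖z - qq / 2‖ → κ z = 0

theorem Small.far {κ : ℂ → ℂ} (h : Small κ) (z : ℂ) (hz : 1 ≤ ‖z‖) : κ z = 0 :=
  h z (by linarith [norm_sub_norm_le z (qq / 2), norm_qq2])

theorem Small.loc {κ : ℂ → ℂ} (h : Small κ) {z : ℂ} (hz : ‖z - qq / 2‖ ≤ 1 / 2) :
    per κ z = κ z := by
  rw [per, finsum_eq_single _ 0 fun v hv => h _ (T.far hz hv), map_zero, sub_zero]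

theorem Small.out {κ : ℂ → ℂ} (h : Small κ) {z : ℂ} (hz : ∀ v, 1 / 2 ≤ ‖z - lat v - qq / 2‖) :
    per κ z = 0 := finsum_eq_zero_of_forall_eq_zero fun v => h _ (hz v)

/-- Every point is a translate of a point of the basic disc or far from all discs. -/
theorem cases_pt (z : ℂ) : (∃ y v, ‖y - qq / 2‖ ≤ 1 / 2 ∧ z = y + lat v) ∨
    ∀ v, 1 / 2 ≤ ‖z - lat v - qq / 2‖ := by
  by_cases h : ∀ v, 1 / 2 ≤ ‖z - lat v - qq / 2‖
  · exact Or.inr h
  · push Not at h
    obtain ⟨v, hv⟩ := h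
    exact Or.inl ⟨z - lat v, v, hv.le, by ring⟩

end Pool.Agent.Lib.MP_988b7a_gt.T
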