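import Pool.Agent.Lib.MP_988b7a_gt.T.Elt

/-! The main theorem. -/

namespace Pool.Agent.Lib.MP_988b7a_gt.T

open Complex Real ComplexConjugate

variable {r : ℕ}

theorem wind_of_log {A L : ℝ → ℂ} (hA : Continuous A) (h0 : ∀ t, A t ≠ 0) (hL : Continuous L)
    (h : ∀ t, cexp (L t) = A t / ‖A t‖) (h1 : A 1 = A 0) (h2 : L 1 = L 0) : Wind A 0 := by
  have hn : ∀ t, 0 < ‖A t‖ := fun t => norm_pos_iff.2 (h0 t)
  refine ⟨fun t => L t + (Real.log ‖A t‖ : ℝ), hL.add (continuous_ofReal.comp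
    (hA.norm.log fun t => (hn t).ne')), fun t => ?_, by simp only [h1, h2, sub_self]⟩
  rw [Complex.exp_add, h, ← ofReal_exp, Real.exp_log (hn t),
    div_mul_cancel₀ _ (ofReal_ne_zero.2 (hn t).ne')]

theorem near (i : Fin 2) {z : ℂ} (h : ‖z - cen i‖ ≤ 1 / 20) : ‖z - qq / 2‖ ≤ 3 / 10 := by
  fin_cases i
  · exact near0 (by simpa [cen] using h)
  · exact nearq h

theorem Out.holed {z : ℂ} (h : Out z) : prj z ∈ Holed := fun w hw i => not_lt.1 fun e => by
  obtain ⟨v, rfl⟩ := prj_eq.1 hw.symm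
  have := h v
  rw [add_sub_cancel_right] at this
  linarith [near i e.le]

theorem sphere_holed {i : Fin 2} {z : ℂ} (h : ‖z - cen i‖ = 1 / 20) : prj z ∈ Holed :=
  fun w hw j => not_lt.1 fun e => by
    obtain ⟨v, rfl⟩ := prj_eq.1 hw.symm
    by_cases hv : v = 0
    · rw [hv, map_zero, add_zero] at h
      have h1 := norm_sub_le (w - cen i) (w - cen j)
      have h2 := norm_qq'
      rw [qq, norm_div, Complex.norm_ofNat] at h2
      fin_cases i <;> fin_cases j <;> simp [cen] at h h1 e ⊢ <;> linarith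
    · have := far (z := w + lat v) (by linarith [near i h.le]) hv
      rw [add_sub_cancel_right] at this
      linarith [near j e.le]

theorem cont_j (j : Fin r) : Continuous fun x : Wedge r => x.1 j :=
  (continuous_apply j).comp continuous_subtype_val

theorem stab_good (j : Fin r) {V : Set Holed} (hV : V ⊆ edge) {ρ : homeoFix edge}
    (h : ρ ∈ stabHomeo hV (fm j)) {ψ : ℂ → ℂ} (g : IsLift ρ ψ) : ∃ A, Good ψ A 0 := by
  obtain ⟨A, e, g1⟩ := g.good
  obtain ⟨l, hl⟩ := g1.per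
  obtain ⟨F⟩ := (stabHomeo hV (fm j)).inv_mem h
  have hF := (cont_j j).comp F.continuous
  obtain ⟨L, h1, h2, -⟩ := exists_log_homotopy (H := fun x => (F (0, x.2)).1 j / (F x).1 j)
    (Continuous.div (hF.comp (continuous_const.prodMk continuous_snd)) hF fun x => wedge_ne _ _)
    (fun x => div_ne_zero (wedge_ne _ _) (wedge_ne _ _)) fun a => div_self (wedge_ne _ _)
  have key : ∀ {γ : ℝ → ℂ} {v : ℤ × ℤ}, Continuous γ → γ 1 = γ 0 + lat v → (∀ t, Out (γ t)) →
      l v = 0 := fun {γ v} a1 a2 a3 => by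
    have b1 := fun t => FF_ne (a3 t).cen
    have b2 := fun t => FF_ne (g1.cen (a3 t).cen)
    have := g.cont
    refine (hl.wind a1 a2 fun t => (a3 t).cen).unique (wind_of_log
      (Continuous.div (by fun_prop) (by fun_prop) b1) (fun t => div_ne_zero (b2 t) (b1 t))
      (L := fun t => L (1, ⟨_, (a3 t).holed⟩))
      (h1.comp (continuous_const.prodMk ((cont_prj.comp a1).subtype_mk _))) (fun t => ?_)
      (by simp only [a2, g1.eqv, FF_lat]) (by simp only [a2, prj_lat]))
    have c1 : (ρ.1 ⟨_, (a3 t).holed⟩ : Tor) = prj (ψ (γ t)) :=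
      ((g.lift _).trans (ext_mem _ ⟨_, (a3 t).holed⟩)).symm
    rw [h2, F.apply_zero, F.apply_one]
    change (fm j (ρ.1 _)).1 j / _ = _
    rw [fm_j, fm_j, c1, sec_prj FF_lat, sec_prj FF_lat, norm_div, ofReal_div, div_div_div_comm]
  have : l = 0 := hom_ext (key cont_y1 y1_one out_y1) (key cont_y2 y2_one out_y2)
  subst this
  exact ⟨A, g1.e_zero hl ▸ g1⟩

theorem isotopic_mem {X Y : Type} [TopologicalSpace X] [TopologicalSpace Y] {B V : Set X}
    (hV : V ⊆ B) (f : C(X, Y)) {ρ : homeoFix B} (h : IsotopicToId B ρ) : ρ ∈ stabHomeo hV f := by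
  obtain ⟨H, h0, h1, h2⟩ := h
  rw [← (stabHomeo hV f).inv_mem_iff]
  refine ContinuousMap.HomotopicRel.symm ⟨⟨⟨f.comp H, fun z => by simp [h0],
    fun z => congrArg f (h1 z)⟩, fun t z hz => ?_⟩⟩
  obtain ⟨e, he⟩ := h2 t
  exact congrArg f ((he z).trans (e.2 z (hV hz)))

theorem isotopic_conj {X : Type} [TopologicalSpace X] {B : Set X} {ρ : homeoFix B}
    (h : IsotopicToId B ρ) (g : homeoFix B) : IsotopicToId B (g * ρ * g⁻¹) := by
  obtain ⟨H, h0, h1, h2⟩ := h
  refine ⟨⟨fun x => g.1 (H (x.1, g.1.symm x.2)), by fun_prop⟩, fun x => by simp [h0],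
    fun x => congrArg g.1 (h1 _), fun t => ?_⟩
  obtain ⟨e, he⟩ := h2 t
  exact ⟨g * e * g⁻¹, fun x => congrArg g.1 (he _)⟩

theorem not_finite (j : Fin r) {V : Set Holed} (hV : V ⊆ edge) : ¬ H1Finite (MCGf hV (fm j)) := by
  intro hfin
  choose ψ hψ using exists_isLift
  let Λ : stabHomeo hV (fm j) →* Multiplicative (ℕ → ℂ) :=
    MonoidHom.mk' (fun ρ => .ofAdd fun p => ∑ᶠ v, kk p (ψ ρ) v) fun a b => funext fun p => by
      obtain ⟨A, ha⟩ := stab_good j hV a.2 (hψ _)
      obtain ⟨B, hb⟩ := stab_good j hV b.2 (hψ _)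
      exact (congrArg (fun x => ∑ᶠ v, kk p x v) ((hψ _).unique ((hψ a).mul (hψ b)))).trans
        (sum_mul ha hb p)
  have hN : Subgroup.normalClosure {ρ | IsotopicToId edge ρ} ≤ Λ.ker.map (Subgroup.subtype _) := by
    refine (Subgroup.closure_le _).2 (fun x hx => ?_)
    obtain ⟨a, ha, hc⟩ := Group.mem_conjugatesOfSet_iff.1 hx
    obtain ⟨g, rfl⟩ := isConj_iff.1 hc
    have h1 := isotopic_conj ha g
    exact ⟨⟨_, isotopic_mem hV _ h1⟩, funext fun p => finsum_eq_zero_of_forall_eq_zero fun v => by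
      rw [kk_eq p (val_isotopic h1 (hψ _)), ite_self], rfl⟩
  let pr : stabHomeo hV (fm j) →* MCGf hV (fm j) := (QuotientGroup.mk' _).subgroupMap _
  have hpr : Function.Surjective pr := MonoidHom.subgroupMap_surjective _ _
  let Λ' : MCGf hV (fm j) →* Multiplicative (ℕ → ℂ) := pr.liftOfSurjective hpr ⟨Λ, fun x hx => by
    obtain ⟨y, h1, h2⟩ := hN ((QuotientGroup.eq_one_iff x.1).1 (congrArg Subtype.val hx))
    exact Subtype.ext h2 ▸ h1⟩
  have hΛ : ∀ x, Λ' (pr x) = Λ x := fun x => MonoidHom.liftOfRightInverse_comp_apply ..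
  have h1 : Module.Finite ℤ (Additive (Abelianization (MCGf hV (fm j)))) :=
    have : Module.Finite ℤ (groupHomology (Rep.trivial ℤ (MCGf hV (fm j)) ℤ) 1) := hfin
    Module.Finite.equiv (M := groupHomology (Rep.trivial ℤ (MCGf hV (fm j)) ℤ) 1)
      ((groupHomology.H1AddEquivOfIsTrivial (Rep.trivial ℤ (MCGf hV (fm j)) ℤ)).trans
        (TensorProduct.rid ℤ _).toAddEquiv).toIntLinearEquiv
  let φ : Additive (Abelianization (MCGf hV (fm j))) →ₗ[ℤ] (ℕ → ℂ) :=
    (MonoidHom.toAdditiveLeft (Abelianization.lift Λ')).toIntLinearMap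
  have h2 : LinearIndependent ℤ (fun n : Nat.Primes =>
      Additive.ofMul (Abelianization.of (pr ⟨rho n.1, rho_mem j hV _⟩))) := by
    refine LinearIndependent.of_comp φ ?_
    have h3 : ∀ n m : Nat.Primes,
        φ (Additive.ofMul (Abelianization.of (pr ⟨rho n.1, rho_mem j hV _⟩))) m.1 =
          if m = n then 2 * π * I else 0 := fun n m =>
      (congrFun (hΛ _) m.1).trans (((congrArg (fun x => ∑ᶠ v, kk m.1 x v)
        ((hψ _).unique (isLift_rho _))).trans (sum_cj _ n.2.ne_zero)).trans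
          (if_congr ((Nat.prime_dvd_prime_iff_eq m.2 n.2).trans Subtype.ext_iff.symm) rfl rfl))
    rw [linearIndependent_iff']
    intro s g hg i hi
    have h4 := congrFun hg i.1
    simp only [Finset.sum_apply, Pi.smul_apply, Function.comp, h3, smul_ite,
      smul_zero, Finset.sum_ite_eq, if_pos hi] at h4
    simpa using h4
  have := h2.finite
  exact _root_.not_finite Nat.Primes

theorem FF_rim {i : Fin 2} {z : ℂ} (h : ‖z - cen i‖ = 1 / 20) : FF (sec (prj z)) = ww z := by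
  rw [sec_prj FF_lat, FF_loc (by linarith [near i h.le]), phi_in (near i h.le)]

theorem essential (j : Fin r) (i : Fin 2) : ¬ ((fm j).restrict (rim i)).Nullhomotopic := by
  rintro ⟨y, hy⟩
  obtain ⟨F⟩ := hy.symm
  obtain ⟨L, h1, h2, -⟩ := exists_log_homotopy (H := fun x => (F x).1 j / y.1 j)
    (((cont_j j).comp F.continuous).div_const _)
    (fun x => div_ne_zero (wedge_ne _ _) (wedge_ne _ _))
    (fun a => by rw [F.apply_zero]; exact div_self (wedge_ne _ _))
  let u : ℝ → ℂ := fun t => 1 / 20 * cexp (t * (2 * π * I))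
  have u1 : ∀ t, ‖u t‖ = 1 / 20 := fun t => by simp [u, Complex.norm_exp]
  have u2 : u 1 = u 0 := by simp [u]
  have u3 : Wind u (2 * π * I) := ⟨fun t => Complex.log (1 / 20) + t * (2 * π * I), by fun_prop,
    fun t => by rw [Complex.exp_add, Complex.exp_log (by norm_num)], by simp⟩
  have u4 : ∀ t, ‖cen i + u t - cen i‖ = 1 / 20 := fun t => by rw [add_sub_cancel_left, u1]
  let p : ℝ → rim i := fun t => ⟨⟨_, sphere_holed (u4 t)⟩, _, rfl, u4 t⟩
  have p1 : Continuous p := Continuous.subtype_mk (Continuous.subtype_mk (by fun_prop) _) _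
  have w1 : Wind (fun t => ww (cen i + u t)) 0 := wind_of_log (by fun_prop)
    (fun t => FF_rim (u4 t) ▸ FF_sec (p t).1) (L := fun t => L (1, p t) + Complex.log (y.1 j))
    (by fun_prop) (fun t => by
      rw [Complex.exp_add, h2, Complex.exp_log (wedge_ne _ _), F.apply_one,
        div_mul_cancel₀ _ (wedge_ne _ _), ← FF_rim (u4 t)]
      exact fm_j j _) (by simp only [u2]) (by simp only [p, u2])
  have hq : qq ≠ 0 := fun e => by simpa using congrArg re e
  have w2 : ∀ q : ℂ, ‖q‖ = ‖qq‖ → Wind (fun t => u t - q) 0 := fun q h => by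
    have h0 : q ≠ 0 := fun e => by rw [e, norm_zero] at h; linarith [norm_qq']
    exact (zero_add (0 : ℂ) ▸ (wind_const (neg_ne_zero.2 h0)).mul (wind_slit
      (A := fun t => 1 - u t / q) (by fun_prop)
      (fun t => slit_one_sub (by rw [u1, h]; linarith [norm_qq'])) (by simp only [u2]))).congr
      fun t => by field_simp; ring
  fin_cases i
  · have := w1.unique ((u3.mul (w2 qq rfl).conj).congr fun t => by simp [ww, cen])
    simp at this
  · have := w1.unique (((w2 (-qq) (norm_neg _)).mul u3.conj).congr fun t => by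
      simp [ww, cen, qq, add_comm])
    simp at this

theorem exists_base (j : Fin r) (i : Fin 2) : ∃ v ∈ rim i, (fm j v).1 = 1 := by
  have hq := norm_qq'
  have key : ∀ s : ℝ, ‖s * qq - cen i‖ = 1 / 20 → 0 < s * (s - 1) →
      ∃ v ∈ rim i, (fm j v).1 = 1 := fun s h1 h2 => by
    refine ⟨⟨_, sphere_holed h1⟩, ⟨_, rfl, h1⟩, ?_⟩
    have h3 : ww (s * qq) = (s * (s - 1) / 8 : ℝ) :=
      Complex.ext (by simp [ww]; ring) (by simp [ww]; ring)
    show Function.update (1 : Fin r → ℂ) j (FF (sec (prj _)) / ‖FF (sec (prj _))‖) = 1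
    rw [FF_rim h1, h3, norm_real, Real.norm_of_nonneg (by linarith),
      div_self (ofReal_ne_zero.2 (by linarith))]
    exact Function.update_eq_self j 1
  have h0 : 0 < 1 / (20 * ‖qq‖) := by positivity
  have h1 : ‖((1 / (20 * ‖qq‖) : ℝ) : ℂ) * qq‖ = 1 / 20 := by
    rw [norm_mul, norm_real, Real.norm_of_nonneg h0.le]
    field_simp
  generalize 1 / (20 * ‖qq‖) = s at h0 h1
  fin_cases i
  · exact key (-s) (by simpa [cen] using h1) (by nlinarith)
  · exact key (1 + s) (by rw [← h1]; congr 1; simp [cen, qq]; ring) (by nlinarith)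

end Pool.Agent.Lib.MP_988b7a_gt.T
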