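import Pool.Agent.Lib.MP_988b7a_gt.T.Good

/-! Shears, and the periods detect the displacement of the second hole. -/

namespace Pool.Agent.Lib.MP_988b7a_gt.T

open Complex ComplexConjugate Real

variable {ψ χ : ℂ → ℂ} {A B : ℤ × ℤ ≃+ ℤ × ℤ} {e e' : ℤ × ℤ} {l l' : ℤ × ℤ →+ ℂ}

/-- A periodic bump. -/
noncomputable def hh (x : ℝ) : ℝ := cl (5 / 2 - 10 * ‖((x - 7 / 20 : ℝ) : UnitAddCircle)‖)

@[fun_prop] theorem cont_hh : Continuous hh := by unfold hh; fun_prop

theorem hh_int (x : ℝ) (n : ℤ) : hh (x + n) = hh x := by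
  have : ((n : ℝ) : UnitAddCircle) = 0 := (AddCircle.coe_eq_zero_iff _).2 ⟨n, by simp⟩
  rw [hh, hh, add_sub_right_comm, AddCircle.coe_add, this, add_zero]

theorem hh_eq {x : ℝ} (h : |x - 7 / 20| ≤ 1 / 2) : hh x = cl (5 / 2 - 10 * |x - 7 / 20|) := by
  rw [hh, (AddCircle.norm_coe_eq_abs_iff 1 one_ne_zero).2 (by simpa using h)]

theorem hh_low {x : ℝ} (h : |x| ≤ 1 / 20) : hh x = 0 := by
  have := abs_le.1 h
  rw [hh_eq (abs_le.2 ⟨by linarith, by linarith⟩), cl_low]
  rw [abs_of_neg (by linarith)]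
  linarith

theorem hh_high {x : ℝ} (h : |x - 1 / 4| ≤ 1 / 20) : hh x = 1 := by
  have := abs_le.1 h
  rw [hh_eq (abs_le.2 ⟨by linarith, by linarith⟩), cl_high]
  rw [abs_of_neg (by linarith)]
  linarith

theorem hh_a : hh (5 / 8) = 0 := by
  rw [hh_eq (by norm_num [abs_le]), cl_low]
  norm_num

theorem hh_b : hh (-3 / 8) = 0 := by
  rw [← hh_a, ← hh_int _ 1]
  norm_num

/-- The vertical shear. -/
noncomputable def sv (θ : ℝ) (z : ℂ) : ℂ := z + (θ * hh z.re : ℝ) * I
/-- The horizontal shear. -/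
noncomputable def sh (θ : ℝ) (z : ℂ) : ℂ := z + (θ * hh z.im : ℝ)

@[fun_prop] theorem cont_sv {X : Type} [TopologicalSpace X] {u : X → ℝ} {z : X → ℂ}
    (hu : Continuous u) (hz : Continuous z) : Continuous fun a => sv (u a) (z a) := by
  unfold sv; fun_prop

@[fun_prop] theorem cont_sh {X : Type} [TopologicalSpace X] {u : X → ℝ} {z : X → ℂ}
    (hu : Continuous u) (hz : Continuous z) : Continuous fun a => sh (u a) (z a) := by
  unfold sh; fun_prop

theorem sv_sv (a b : ℝ) (z : ℂ) : sv a (sv b z) = sv (a + b) z := by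
  simp [sv]; ring
theorem sh_sh (a b : ℝ) (z : ℂ) : sh a (sh b z) = sh (a + b) z := by
  simp [sh]; ring
theorem sv_zero (z : ℂ) : sv 0 z = z := by simp [sv]
theorem sh_zero (z : ℂ) : sh 0 z = z := by simp [sh]

theorem sh_inj (a : ℝ) : Function.Injective (sh a) :=
  Function.LeftInverse.injective (g := sh (-a)) fun z => by rw [sh_sh, neg_add_cancel, sh_zero]

theorem good_sv (n : ℤ) : Good (sv n) (.refl _) (0, n) := by
  refine ⟨by fun_prop, ⟨sv (-n), by fun_prop, fun z => by rw [sv_sv, neg_add_cancel, sv_zero]⟩,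
    fun z v => ?_, fun z hz => ?_, fun z hz => ?_⟩
  · simp [sv, hh_int]; ring
  · simp [sv, hh_low ((abs_re_le_norm z).trans hz)]
  · simp [sv, hh_high (x := z.re) (by simpa using (abs_re_le_norm _).trans hz), lat]

theorem good_sh (n : ℤ) : Good (sh n) (.refl _) (n, 0) := by
  refine ⟨by fun_prop, ⟨sh (-n), by fun_prop, fun z => by rw [sh_sh, neg_add_cancel, sh_zero]⟩,
    fun z v => ?_, fun z hz => ?_, fun z hz => ?_⟩
  · simp [sh, hh_int]; ring
  · simp [sh, hh_low ((abs_im_le_norm z).trans hz)]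
  · simp [sh, hh_high (x := z.im) (by simpa using (abs_im_le_norm _).trans hz), lat]

/-- A horizontal line. -/
noncomputable def y1 (t : ℝ) : ℂ := (t - 3 / 8 : ℝ) + (-3 / 8 : ℝ) * I
/-- A vertical line. -/
noncomputable def y2 (t : ℝ) : ℂ := (-3 / 8 : ℝ) + (t - 3 / 8 : ℝ) * I

@[fun_prop] theorem cont_y1 : Continuous y1 := by unfold y1; fun_prop
@[fun_prop] theorem cont_y2 : Continuous y2 := by unfold y2; fun_prop
@[simp] theorem y1_re (t : ℝ) : (y1 t).re = t - 3 / 8 := by simp [y1]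
@[simp] theorem y1_im (t : ℝ) : (y1 t).im = -3 / 8 := by simp [y1]
@[simp] theorem y2_re (t : ℝ) : (y2 t).re = -3 / 8 := by simp [y2]
@[simp] theorem y2_im (t : ℝ) : (y2 t).im = t - 3 / 8 := by simp [y2]
theorem y1_one : y1 1 = y1 0 + lat (1, 0) := Complex.ext (by norm_num) (by simp)
theorem y2_one : y2 1 = y2 0 + lat (0, 1) := Complex.ext (by simp) (by norm_num)

/-- Far from all discs. -/
def Out (z : ℂ) : Prop := ∀ v, 1 / 2 ≤ ‖z - lat v - qq / 2‖

theorem half_le {x : ℝ} {n : ℤ} (h : |x - 1 / 8| ≤ 1 / 2) (hn : n ≠ 0 ∨ x = -3 / 8) :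
    1 / 2 ≤ |x - n - 1 / 8| := by
  have h1 := abs_le.1 h
  rcases lt_trichotomy n 0 with h2 | rfl | h2
  · have : (n : ℝ) ≤ -1 := by exact_mod_cast (show n ≤ -1 by omega)
    exact le_abs.2 (Or.inl (by linarith))
  · exact le_abs.2 (Or.inr (by simp at hn; rw [hn]; norm_num))
  · have : (1 : ℝ) ≤ n := by exact_mod_cast h2
    exact le_abs.2 (Or.inr (by linarith))

theorem half_re {z : ℂ} {v : ℤ × ℤ} (h : |z.re - 1 / 8| ≤ 1 / 2) (hn : v.1 ≠ 0 ∨ z.re = -3 / 8) :
    1 / 2 ≤ ‖z - lat v - qq / 2‖ :=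
  le_trans (by simpa [show (4 : ℝ)⁻¹ / 2 = 8⁻¹ by norm_num] using half_le h hn) (abs_re_le_norm _)

theorem half_im {z : ℂ} {v : ℤ × ℤ} (h : |z.im - 1 / 8| ≤ 1 / 2) (hn : v.2 ≠ 0 ∨ z.im = -3 / 8) :
    1 / 2 ≤ ‖z - lat v - qq / 2‖ :=
  le_trans (by simpa [show (4 : ℝ)⁻¹ / 2 = 8⁻¹ by norm_num] using half_le h hn) (abs_im_le_norm _)

theorem out_y1 (t : ℝ) : Out (y1 t) := fun _ => half_im (by norm_num [abs_le]) (Or.inr (by simp))
theorem out_y2 (t : ℝ) : Out (y2 t) := fun _ => half_re (by norm_num [abs_le]) (Or.inr (by simp))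

theorem Out.cen {z : ℂ} (h : Out z) : ¬ Cen z := by
  rintro ⟨v, rfl | rfl⟩
  · have := h v
    rw [sub_self] at this
    linarith [near0 (z := 0) (by simp)]
  · have := h v
    rw [add_sub_cancel_right] at this
    linarith [nearq (z := qq) (by simp)]

theorem FF_sq {z : ℂ} (h1 : |z.re - 1 / 8| ≤ 1 / 2) (h2 : |z.im - 1 / 8| ≤ 1 / 2) :
    FF z = phi z := by
  rw [FF_prod, finprod_eq_single _ 0, map_zero, sub_zero]
  intro v hv
  by_cases h : v.1 = 0
  · exact phi_out (by linarith [half_im h2 (Or.inl fun e : v.2 = 0 => hv (Prod.ext h e))])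
  · exact phi_out (by linarith [half_re h1 (Or.inl h)])

theorem hom_ext (h1 : l (1, 0) = l' (1, 0)) (h2 : l (0, 1) = l' (0, 1)) : l = l' := by
  refine AddMonoidHom.ext fun v => ?_
  rw [show v = v.1 • ((1, 0) : ℤ × ℤ) + v.2 • (0, 1) by simp, map_add, map_add, map_zsmul,
    map_zsmul, map_zsmul, map_zsmul, h1, h2]

theorem Per.w1 (h : Per ψ l) : Wind (fun t => FF (ψ (y1 t)) / FF (y1 t)) (l (1, 0)) :=
  h.wind cont_y1 y1_one fun t => (out_y1 t).cen

theorem Per.w2 (h : Per ψ l) : Wind (fun t => FF (ψ (y2 t)) / FF (y2 t)) (l (0, 1)) :=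
  h.wind cont_y2 y2_one fun t => (out_y2 t).cen

theorem Per.unique (h : Per ψ l) (h' : Per ψ l') : l = l' :=
  hom_ext (h.w1.unique h'.w1) (h.w2.unique h'.w2)

theorem Per.comp (h : Per ψ l) (h' : Per χ l') (g : Good χ B e') :
    Per (fun z => ψ (χ z)) (l.comp B + l') := by
  obtain ⟨L, a1, a2, a3⟩ := h
  obtain ⟨M, b1, b2, b3⟩ := h'
  exact ⟨fun z => L (χ z) + M z, (a1.comp g.cont).add b1,
    fun z => by rw [a2, b2, Complex.exp_add, mul_assoc], fun z v => by
      simp only [g.eqv, a3, b3]; simp; ring⟩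

theorem Wind.eq_on {A B : ℝ → ℂ} {a b : ℂ} (ha : Wind A a) (hb : Wind B b)
    (h : ∀ t ∈ Set.Icc (0 : ℝ) 1, A t = B t) : a = b := by
  obtain ⟨α, h1, h2, rfl⟩ := ha
  obtain ⟨β, h3, h4, rfl⟩ := hb
  have := sub_const isPreconnected_Icc h1.continuousOn h3.continuousOn
    (fun t ht => by rw [h2, h4, h t ht]) (a := 1) (b := 0) (by simp) (by simp)
  linear_combination this

theorem wind_phi : ∃ c ≠ 0, Wind (fun t => phi (sv 1 (y1 t)) / phi (y1 t)) c := by
  obtain ⟨K, h1, h2, -⟩ := exists_ratio cont_ww cont_phi fun z => by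
    by_cases e0 : z = 0
    · subst e0
      right
      filter_upwards [ev_near 0] with w hw
      exact phi_in (near0 (by simpa using hw))
    by_cases e1 : z = qq
    · subst e1
      right
      filter_upwards [ev_near qq] with w hw
      exact phi_in (nearq hw)
    · exact Or.inl ⟨ww_ne e0 e1, phi_ne e0 e1⟩
  have e0 : sv 1 (y1 0) = y1 0 := by simp [sv, ← neg_div, hh_b]
  have e1 : sv 1 (y1 1) = y1 1 := by simp [sv, show (1 : ℝ) - 3 / 8 = 5 / 8 by norm_num, hh_a]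
  have n0 : ∀ t, y1 t ≠ 0 := fun t e => by simpa using congrArg im e
  have w1 : Wind (fun t => cexp (K (sv 1 (y1 t)) - K (y1 t))) 0 :=
    ⟨_, by fun_prop, fun _ => rfl, by simp [e0, e1]⟩
  have w2 : Wind (fun t => sv 1 (y1 t) / y1 t) 0 := by
    refine wind_slit (Continuous.div (by fun_prop) (by fun_prop) n0) (fun t => ?_)
      (by simp [e0, e1, n0])
    by_cases h : (y1 t).re = 0
    · simp [sv, h, hh_low, n0, -y1_re]
    · by_contra hc
      obtain ⟨c1, c2⟩ := not_or.1 hc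
      have c3 := congrArg re (div_mul_cancel₀ (sv 1 (y1 t)) (n0 t))
      rw [mul_re, not_not.1 c2, zero_mul, sub_zero, show (sv 1 (y1 t)).re = (y1 t).re by simp [sv],
        mul_eq_right₀ h] at c3
      exact c1 (by rw [c3]; exact one_pos)
  have s1 : ∀ t, (sv 1 (y1 t) - qq) * -I ∈ slitPlane := fun t => by
    by_cases h : t - 3 / 8 = 1 / 4
    · left
      simp [sv, h, hh_high]
      norm_num
    · right
      simpa [sv, sub_eq_zero] using Ne.symm h
  have s2 : ∀ t, (y1 t - qq) * I ∈ slitPlane := fun t => Or.inl (by simp; norm_num)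
  have w3 : Wind (fun t => (sv 1 (y1 t) - qq) * -I / ((y1 t - qq) * I))
      (log ((y1 1 - qq) * -I) - log ((y1 0 - qq) * -I) -
        (log ((y1 1 - qq) * I) - log ((y1 0 - qq) * I))) :=
    Wind.div ⟨_, Continuous.clog (by fun_prop) s1, fun t => exp_log (slitPlane_ne_zero (s1 t)),
      by simp only [e0, e1]⟩
      ⟨_, Continuous.clog (by fun_prop) s2, fun t => exp_log (slitPlane_ne_zero (s2 t)), rfl⟩
  refine ⟨_, ?_, (((w1.mul w2).mul w3.conj).mul (wind_const (a := -1) (by simp))).congr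
    fun t => ?_⟩
  · intro h
    have := congrArg im h
    simp only [mul_neg, zero_add, add_zero, conj_im, sub_im, log_im, zero_im] at this
    rw [arg_neg_eq_arg_sub_pi_of_im_pos (by simp; norm_num),
      arg_neg_eq_arg_add_pi_of_im_neg (by simp; norm_num)] at this
    linarith [pi_pos]
  · have a1 : conj (y1 t - qq) ≠ 0 :=
      (map_ne_zero _).2 (left_ne_zero_of_mul (slitPlane_ne_zero (s2 t)))
    have a2 := n0 t
    simp only [h2, ww, Complex.exp_sub, map_div₀, map_mul, map_neg, conj_I]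
    field_simp

theorem add_per {s : ℤ → ℂ → ℂ} {d : ℤ → ℤ × ℤ} (h : ∀ n, Good (s n) (.refl _) (d n))
    (hs : ∀ m n z, s (m + n) z = s m (s n z)) :
    ∃ l : ℤ × ℤ →+ ℂ, ∀ n, Per (s n) (n • l) := by
  choose a ha using fun n => (h n).per
  let a' : ℤ →+ (ℤ × ℤ →+ ℂ) := AddMonoidHom.mk' a fun m n =>
    (ha _).unique (by rw [funext (hs m n)]; exact (ha m).comp (ha n) (h n))
  refine ⟨a 1, fun n => ?_⟩
  have : a n = n • a 1 := by simpa [a'] using map_zsmul a' n 1
  exact this ▸ ha n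

theorem in_sq {t : ℝ} (ht : t ∈ Set.Icc (0 : ℝ) 1) : |t - 3 / 8 - 1 / 8| ≤ 1 / 2 :=
  abs_le.2 ⟨by linarith [ht.1], by linarith [ht.2]⟩

theorem in_sq' (x : ℝ) : |-3 / 8 + hh x - 1 / 8| ≤ 1 / 2 :=
  abs_le.2 ⟨by linarith [show 0 ≤ hh x from cl_nonneg _], by linarith [show hh x ≤ 1 from cl_le _]⟩

theorem phi_sw (z : ℂ) : phi (I * conj z) = conj (phi z) := by
  have h1 : I * conj z - qq / 2 = I * conj (z - qq / 2) := by
    generalize hx : qq / 2 = x
    have : x.re = x.im := by simp [← hx]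
    exact Complex.ext (by simp [this]; ring) (by simp [this])
  have h2 : ww (I * conj z) = conj (ww z) :=
    Complex.ext (by simp [ww]; ring) (by simp [ww]; ring)
  simp [phi, h1, h2, -map_sub]
  simp

/-- Vanishing periods force the second hole to be fixed. -/
theorem Good.e_zero (h : Good ψ A e) (hp : Per ψ 0) : e = 0 := by
  obtain ⟨c, c0, hc⟩ := wind_phi
  obtain ⟨a, ha⟩ := add_per good_sv fun m n z => by rw [sv_sv, Int.cast_add]
  obtain ⟨b, hb⟩ := add_per good_sh fun m n z => by rw [sh_sh, Int.cast_add]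
  have a1 : a (1, 0) = c := by
    refine (one_smul ℤ a ▸ ha 1).w1.eq_on hc fun t ht => ?_
    rw [FF_sq (z := y1 t) (by simpa using in_sq ht) (by norm_num [abs_le]), Int.cast_one,
      FF_sq (by simpa [sv] using in_sq ht) (by simpa [sv] using in_sq' _)]
  have a2 : a (0, 1) = 0 := (one_smul ℤ a ▸ ha 1).w2.unique ((wind_const one_ne_zero).congr
    fun t => by simp [sv, hh_b, FF_ne (out_y2 t).cen])
  have b1 : b (1, 0) = 0 := (one_smul ℤ b ▸ hb 1).w1.unique ((wind_const one_ne_zero).congr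
    fun t => by simp [sh, hh_b, FF_ne (out_y1 t).cen])
  have b2 : b (0, 1) = conj c := by
    refine (one_smul ℤ b ▸ hb 1).w2.eq_on hc.conj fun t ht => ?_
    rw [FF_sq (z := y2 t) (by norm_num [abs_le]) (by simpa using in_sq ht), Int.cast_one,
      FF_sq (by simpa [sh] using in_sq' _) (by simpa [sh] using in_sq ht), map_div₀, ← phi_sw,
      ← phi_sw]
    congr 2 <;> exact Complex.ext (by simp [sh, sv, add_comm]) (by simp [sh, sv])
  have g1 := ((good_sv (-e.2)).comp (good_sh (-e.1))).comp h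
  rw [show ((0, -e.2) : ℤ × ℤ) + _ + _ = 0 from Prod.ext (by simp) (by simp)] at g1
  have g2 := (((ha (-e.2)).comp (hb (-e.1)) (good_sh _)).comp hp h).unique g1.per_zero
  have g3 := DFunLike.congr_fun g2 (A.symm (1, 0))
  have g4 := DFunLike.congr_fun g2 (A.symm (0, 1))
  simp [a1, a2, b1, b2, c0] at g3 g4
  exact Prod.ext g4 g3

end Pool.Agent.Lib.MP_988b7a_gt.T
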